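import Pool.Agent.L0h50.UT.TwA
import Pool.Agent.L0h51.UT.EmbT

/-!
# Ramification and degree one in terms of ideals

Project UT (helper50).
-/

set_option autoImplicit false
set_option linter.all false

open IsDedekindDomain NumberField
open scoped Classical

namespace Pool.Agent.L0h50.UT

open Pool.Agent.N783.PF (Ov)

section

variable {F M : Type} [Field F] [NumberField F] [Field M] [NumberField M] [Algebra F M]

theorem comap_of_ov {v : HeightOneSpectrum (𝓞 F)} {w : HeightOneSpectrum (𝓞 M)}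
    (h : Ov v.asIdeal w) : w.asIdeal.comap (algebraMap (𝓞 F) (𝓞 M)) = v.asIdeal := by
  haveI := v.isMaximal
  refine (v.isMaximal.eq_of_le ?_ h).symm
  exact (Ideal.comap_isPrime (algebraMap (𝓞 F) (𝓞 M)) w.asIdeal).ne_top

theorem unr_of {v : HeightOneSpectrum (𝓞 F)} {w : HeightOneSpectrum (𝓞 M)}
    (h : w.asIdeal.comap (algebraMap (𝓞 F) (𝓞 M)) = v.asIdeal)
    (hu : ¬ v.asIdeal.map (algebraMap (𝓞 F) (𝓞 M)) ≤ w.asIdeal ^ 2) : Unr v w := by
  have hv : TeamU.Over w v := h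
  have hlies := TeamU.liesOver_of_over hv
  intro a
  rw [TeamU.val_over hv]
  have hne := Ideal.IsDedekindDomain.ramificationIdx'_ne_zero_of_liesOver w.asIdeal v.ne_bot
  have hlt : v.asIdeal.ramificationIdx' w.asIdeal < 2 := by
    by_contra hge
    push Not at hge
    exact hu (Ideal.le_pow_of_le_ramificationIdx' hge)
  have : v.asIdeal.ramificationIdx' w.asIdeal = 1 := by omega
  rw [this, pow_one]

theorem dns_of {v : HeightOneSpectrum (𝓞 F)} {w : HeightOneSpectrum (𝓞 M)}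
    (h : w.asIdeal.comap (algebraMap (𝓞 F) (𝓞 M)) = v.asIdeal) (hu : Unr v w)
    (hc : Nat.card (𝓞 M ⧸ w.asIdeal) = Nat.card (𝓞 F ⧸ v.asIdeal)) : Dns F w := by
  intro s hs
  -- the residue fields
  haveI : Finite (𝓞 M ⧸ w.asIdeal) := Ideal.finiteQuotientOfFreeOfNeBot _ w.ne_bot
  haveI : Finite (𝓞 F ⧸ v.asIdeal) := Ideal.finiteQuotientOfFreeOfNeBot _ v.ne_bot
  let φ : 𝓞 F ⧸ v.asIdeal →+* 𝓞 M ⧸ w.asIdeal :=
    Ideal.quotientMap w.asIdeal (algebraMap (𝓞 F) (𝓞 M)) h.ge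
  have hφ : Function.Injective φ := Ideal.quotientMap_injective' h.le
  have hφs : Function.Surjective φ :=
    (Function.Injective.bijective_of_nat_card_le hφ hc.le).2
  obtain ⟨π, hπ⟩ := v.valuation_exists_uniformizer F
  have hws : w.valuation M s ≠ 0 := (Valuation.ne_zero_iff _).2 hs
  obtain ⟨n, hn⟩ : ∃ n : ℤ, w.valuation M s = WithZero.exp n :=
    ⟨WithZero.log (w.valuation M s), (WithZero.exp_log hws).symm⟩
  have hπ0 : π ≠ 0 := by
    rintro rfl
    rw [map_zero] at hπ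
    exact WithZero.exp_ne_zero hπ.symm
  have hp : w.valuation M (algebraMap F M (π ^ (-n))) = w.valuation M s := by
    rw [hu, map_zpow₀, hπ, hn, ← WithZero.exp_zsmul]
    congr 1
    simp
  have hp0 : algebraMap F M (π ^ (-n)) ≠ 0 := by
    rw [Ne, map_eq_zero]
    exact zpow_ne_zero _ hπ0
  have hu1 : w.valuation M (s / algebraMap F M (π ^ (-n))) ≤ 1 := by
    rw [map_div₀, hp, div_self hws]
  obtain ⟨b, hb⟩ := w.exists_valuation_sub_lt_of_integer (K := M) hu1 1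
  obtain ⟨a', ha'⟩ := hφs (Ideal.Quotient.mk _ b)
  obtain ⟨a, rfl⟩ := Ideal.Quotient.mk_surjective a'
  have hab : algebraMap (𝓞 F) (𝓞 M) a - b ∈ w.asIdeal := by
    rw [← Ideal.Quotient.eq]
    exact ha'
  refine ⟨(a : F) * π ^ (-n), ?_⟩
  have e : s - algebraMap F M ((a : F) * π ^ (-n)) =
      (s / algebraMap F M (π ^ (-n)) - algebraMap F M (a : F)) * algebraMap F M (π ^ (-n)) := by
    rw [sub_mul, div_mul_cancel₀ _ hp0, map_mul]
  rw [e, map_mul, hp]
  have h1 : w.valuation M (s / algebraMap F M (π ^ (-n)) - algebraMap F M (a : F)) < 1 := by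
    have e2 : s / algebraMap F M (π ^ (-n)) - algebraMap F M (a : F) =
        -((algebraMap (𝓞 M) M b - s / algebraMap F M (π ^ (-n))) +
          algebraMap (𝓞 M) M (algebraMap (𝓞 F) (𝓞 M) a - b)) := by
      have e3 : algebraMap (𝓞 M) M (algebraMap (𝓞 F) (𝓞 M) a) = algebraMap F M (a : F) := rfl
      rw [map_sub, e3]
      ring
    rw [e2, Valuation.map_neg]
    refine Valuation.map_add_lt _ hb ?_
    rw [HeightOneSpectrum.valuation_lt_one_iff_mem]
    exact hab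
  calc _ < 1 * w.valuation M s := mul_lt_mul_of_pos_right h1 (zero_lt_iff.2 hws)
    _ = _ := one_mul _

/-- The conditions in terms of ideals. -/
theorem spl_of {D T : Set ℕ} (hg : IsGalois F M) (hd : ∃ n : ℕ, Module.finrank F M = 2 ^ n)
    (hreal : ∀ σ : F →+* ℝ, ∃ τ : M →+* ℝ, ∀ x : F, τ (algebraMap F M x) = σ x)
    (hD : ∀ P : Ideal (𝓞 M), P.IsPrime → P ≠ ⊥ → (∀ p ∈ D, (p : 𝓞 M) ∉ P) →
      ¬ (P.comap (algebraMap (𝓞 F) (𝓞 M))).map (algebraMap (𝓞 F) (𝓞 M)) ≤ P ^ 2)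
    (hT : ∀ P : Ideal (𝓞 M), P.IsPrime → P ≠ ⊥ → ∀ q : ℕ, q = 2 ∨ q ∈ T → (q : 𝓞 M) ∈ P →
      (¬ (P.comap (algebraMap (𝓞 F) (𝓞 M))).map (algebraMap (𝓞 F) (𝓞 M)) ≤ P ^ 2) ∧
      Nat.card (𝓞 M ⧸ P) = Nat.card (𝓞 F ⧸ P.comap (algebraMap (𝓞 F) (𝓞 M)))) :
    Spl F M D T := by
  have key : ∀ q : ℕ, q = 2 ∨ q ∈ T → ∀ (v : HeightOneSpectrum (𝓞 F))
      (w : HeightOneSpectrum (𝓞 M)), (q : 𝓞 F) ∈ v.asIdeal → Ov v.asIdeal w →
      Unr v w ∧ Dns F w := by
    intro q hq v w hqv hw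
    have hw' : w.asIdeal.comap (algebraMap (𝓞 F) (𝓞 M)) = v.asIdeal := comap_of_ov hw
    have hqw : (q : 𝓞 M) ∈ w.asIdeal := by
      rw [← hw', Ideal.mem_comap, map_natCast] at hqv
      exact hqv
    obtain ⟨h1, h2⟩ := hT w.asIdeal w.isPrime w.ne_bot q hq hqw
    rw [hw'] at h1 h2
    have h3 := unr_of hw' h1
    exact ⟨h3, dns_of hw' h3 h2⟩
  refine ⟨⟨hg, hd, fun v hv => ?_, hreal⟩, fun v w hw => ?_, fun q hq => key q (Or.inr hq)⟩
  · obtain ⟨w, hw⟩ := TeamU.exists_over F M v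
    have hwo : Ov v.asIdeal w := fun a ha => by
      have hw1 : w.asIdeal.comap (algebraMap (𝓞 F) (𝓞 M)) = v.asIdeal := hw
      rw [← hw1] at ha
      exact ha
    obtain ⟨h1, h2⟩ := key 2 (Or.inl rfl) v w (by exact_mod_cast hv) hwo
    exact Pool.Agent.L0h51.UT.emb F M v w h1 h2
  · by_cases h : ∃ p ∈ D, (p : 𝓞 F) ∈ v.asIdeal
    · exact Or.inr h
    · left
      push Not at h
      have hw' : w.asIdeal.comap (algebraMap (𝓞 F) (𝓞 M)) = v.asIdeal := comap_of_ov hw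
      refine unr_of hw' ?_
      rw [← hw']
      apply hD w.asIdeal w.isPrime w.ne_bot
      intro p hp hpw
      apply h p hp
      rw [← hw', Ideal.mem_comap, map_natCast]
      exact hpw

end

end Pool.Agent.L0h50.UT
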