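import Pool.Agent.L0h50.UT.StmT

/-!
# The compositum of a number field and the tower is a union of layers

Project UT (helper50).
-/

set_option autoImplicit false
set_option linter.all false

open IntermediateField NumberField
open scoped Classical

namespace Pool.Agent.L0h50.UT

attribute [local instance 10] DivisionRing.toRatAlgebra

open Pool.Agent.Y800 (GQ)

theorem normal_of_gal {L : IntermediateField ℚ (AlgebraicClosure ℚ)}
    (hL : ∀ (σ : GQ) (y : AlgebraicClosure ℚ), y ∈ L → σ y ∈ L) : Normal ℚ L := by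
  rw [IntermediateField.normal_iff_forall_map_le']
  intro σ y hy
  obtain ⟨z, hz, rfl⟩ := (IntermediateField.mem_map _).1 hy
  exact hL σ z hz

section

variable {L : IntermediateField ℚ (AlgebraicClosure ℚ)} {F K : Type} [Field F] [NumberField F]
  [Field K] [Algebra F K] (ι : L →+* K)

/-- the image of the elements of `N` -/
def im (N : IntermediateField ℚ (AlgebraicClosure ℚ)) : Set K :=
  ι '' {y : L | (y : AlgebraicClosure ℚ) ∈ N}

/-- `N` is a finite Galois extension of `ℚ` inside `L` -/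
structure FG (L N : IntermediateField ℚ (AlgebraicClosure ℚ)) : Prop where
  le : N ≤ L
  fd : FiniteDimensional ℚ N
  gal : IsGalois ℚ N

theorem FG.sup {N₁ N₂ : IntermediateField ℚ (AlgebraicClosure ℚ)} (h₁ : FG L N₁) (h₂ : FG L N₂) :
    FG L (N₁ ⊔ N₂) := by
  haveI := h₁.fd
  haveI := h₂.fd
  haveI := h₁.gal
  haveI := h₂.gal
  refine ⟨sup_le h₁.le h₂.le, inferInstance, ?_⟩
  haveI : Normal ℚ (N₁ ⊔ N₂ : IntermediateField ℚ (AlgebraicClosure ℚ)) :=
    IntermediateField.normal_sup ℚ (AlgebraicClosure ℚ) N₁ N₂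
  exact ⟨⟩

theorem FG.bot : FG L ⊥ := by
  refine ⟨bot_le, inferInstance, ?_⟩
  haveI : Normal ℚ (⊥ : IntermediateField ℚ (AlgebraicClosure ℚ)) :=
    normal_of_gal fun σ y hy => by
      obtain ⟨r, rfl⟩ := IntermediateField.mem_bot.1 hy
      rw [AlgEquiv.commutes]
      exact IntermediateField.mem_bot.2 ⟨r, rfl⟩
  exact ⟨⟩

theorem exists_FG (hL : ∀ (σ : GQ) (y : AlgebraicClosure ℚ), y ∈ L → σ y ∈ L) (y : L) :
    ∃ N, FG L N ∧ (y : AlgebraicClosure ℚ) ∈ N := by
  haveI := normal_of_gal hL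
  haveI : FiniteDimensional ℚ ℚ⟮(y : AlgebraicClosure ℚ)⟯ :=
    adjoin.finiteDimensional (Algebra.IsIntegral.isIntegral (R := ℚ) (y : AlgebraicClosure ℚ))
  let N : IntermediateField ℚ (AlgebraicClosure ℚ) :=
    IntermediateField.normalClosure ℚ ℚ⟮(y : AlgebraicClosure ℚ)⟯ (AlgebraicClosure ℚ)
  have h1 : ℚ⟮(y : AlgebraicClosure ℚ)⟯ ≤ N := IntermediateField.le_normalClosure _
  haveI : Normal ℚ N := inferInstance
  refine ⟨N, ⟨?_, ?_, ⟨⟩⟩, h1 (mem_adjoin_simple_self ℚ _)⟩
  · rw [IntermediateField.normalClosure_le_iff_of_normal, adjoin_simple_le_iff]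
    exact y.2
  · exact inferInstance

theorem im_mono {N₁ N₂ : IntermediateField ℚ (AlgebraicClosure ℚ)} (h : N₁ ≤ N₂) :
    im ι N₁ ⊆ im ι N₂ := Set.image_mono fun _ hy => h hy

theorem exists_one (hL : ∀ (σ : GQ) (y : AlgebraicClosure ℚ), y ∈ L → σ y ∈ L)
    (hadj : Algebra.adjoin F (Set.range ι) = ⊤) (x : K) :
    ∃ N, FG L N ∧ x ∈ Algebra.adjoin F (im ι N) := by
  have hx : x ∈ Algebra.adjoin F (Set.range ι) := by rw [hadj]; trivial
  induction hx using Algebra.adjoin_induction with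
  | mem x hx =>
    obtain ⟨y, rfl⟩ := hx
    obtain ⟨N, h1, h2⟩ := exists_FG hL y
    exact ⟨N, h1, Algebra.subset_adjoin ⟨y, h2, rfl⟩⟩
  | algebraMap r => exact ⟨⊥, FG.bot, Subalgebra.algebraMap_mem _ r⟩
  | add x y _ _ hx hy =>
    obtain ⟨N₁, h1, h2⟩ := hx
    obtain ⟨N₂, h3, h4⟩ := hy
    exact ⟨N₁ ⊔ N₂, h1.sup h3, add_mem (Algebra.adjoin_mono (im_mono ι le_sup_left) h2)
      (Algebra.adjoin_mono (im_mono ι le_sup_right) h4)⟩
  | mul x y _ _ hx hy =>
    obtain ⟨N₁, h1, h2⟩ := hx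
    obtain ⟨N₂, h3, h4⟩ := hy
    exact ⟨N₁ ⊔ N₂, h1.sup h3, mul_mem (Algebra.adjoin_mono (im_mono ι le_sup_left) h2)
      (Algebra.adjoin_mono (im_mono ι le_sup_right) h4)⟩

theorem exists_fin (hL : ∀ (σ : GQ) (y : AlgebraicClosure ℚ), y ∈ L → σ y ∈ L)
    (hadj : Algebra.adjoin F (Set.range ι) = ⊤) (t : Finset K) :
    ∃ N, FG L N ∧ ∀ x ∈ t, x ∈ Algebra.adjoin F (im ι N) := by
  induction t using Finset.induction_on with
  | empty => exact ⟨⊥, FG.bot, fun x hx => absurd hx (Finset.notMem_empty x)⟩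
  | insert a t _ ih =>
    obtain ⟨N₁, h1, h2⟩ := ih
    obtain ⟨N₂, h3, h4⟩ := exists_one (F := F) ι hL hadj a
    refine ⟨N₁ ⊔ N₂, h1.sup h3, fun x hx => ?_⟩
    rcases Finset.mem_insert.1 hx with rfl | hx
    · exact Algebra.adjoin_mono (im_mono ι le_sup_right) h4
    · exact Algebra.adjoin_mono (im_mono ι le_sup_left) (h2 x hx)

/-- the field generated by `F` and `N` -/
theorem layer_of {N : IntermediateField ℚ (AlgebraicClosure ℚ)} (h : FG L N) :
    ∃ M : IntermediateField F K, (∀ x ∈ Algebra.adjoin F (im ι N), x ∈ M) ∧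
      FiniteDimensional F M ∧ Layer L F M := by
  haveI := h.fd
  haveI : CharZero K := charZero_of_injective_algebraMap (algebraMap F K).injective
  let j : N →+* K := ι.comp (IntermediateField.inclusion h.le : N →+* L)
  have him : im ι N = Set.range j := by
    ext x
    constructor
    · rintro ⟨y, hy, rfl⟩
      exact ⟨⟨y, hy⟩, rfl⟩
    · rintro ⟨y, rfl⟩
      exact ⟨⟨y, h.le y.2⟩, y.2, rfl⟩
  have halg : ∀ y : N, IsIntegral F (j y) := by
    intro y
    have h1 : IsIntegral ℚ y := Algebra.IsIntegral.isIntegral y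
    have h2 : IsIntegral ℚ (j y) := h1.map (RingHom.toRatAlgHom j)
    exact h2.tower_top
  obtain ⟨α, hα⟩ := Field.exists_primitive_element ℚ N
  let M : IntermediateField F K := F⟮j α⟯
  have hM : ∀ y : N, j y ∈ M := by
    intro y
    let M' : IntermediateField ℚ K := M.restrictScalars ℚ
    have h3 : ℚ⟮α⟯ ≤ M'.comap (RingHom.toRatAlgHom j) := by
      rw [adjoin_simple_le_iff]
      change j α ∈ M
      exact mem_adjoin_simple_self F _
    rw [hα] at h3
    exact h3 (x := y) trivial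
  have hfd : FiniteDimensional F M := adjoin.finiteDimensional (halg α)
  have hsub : (Algebra.adjoin F (im ι N) : Subalgebra F K) ≤ M.toSubalgebra := by
    rw [him, Algebra.adjoin_le_iff]
    rintro _ ⟨y, rfl⟩
    exact hM y
  refine ⟨M, fun x hx => hsub hx, hfd, N, h.le, h.fd, h.gal, ?_⟩
  let j' : N →+* M := j.codRestrict M.toSubfield.toSubring hM
  refine ⟨j', ?_⟩
  rw [eq_top_iff]
  rintro x -
  have hx : (x : K) ∈ Algebra.adjoin F {j α} := by
    have h4 := x.2
    have h5 : (x : K) ∈ F⟮j α⟯.toSubalgebra := h4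
    rwa [IntermediateField.adjoin_simple_toSubalgebra_of_isAlgebraic (halg α).isAlgebraic] at h5
  have h6 : (Algebra.adjoin F (Set.range j')).map M.val = Algebra.adjoin F (Set.range j) := by
    rw [AlgHom.map_adjoin]
    congr 1
    ext z
    constructor
    · rintro ⟨_, ⟨y, rfl⟩, rfl⟩
      exact ⟨y, rfl⟩
    · rintro ⟨y, rfl⟩
      exact ⟨_, ⟨y, rfl⟩, rfl⟩
  have h7 : (x : K) ∈ (Algebra.adjoin F (Set.range j')).map M.val := by
    rw [h6]
    exact Algebra.adjoin_mono (Set.singleton_subset_iff.2 (Set.mem_range_self (f := j) α)) hx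
  obtain ⟨z, hz, hzx⟩ := h7
  have : z = x := Subtype.ext hzx
  rwa [this] at hz

end

end Pool.Agent.L0h50.UT
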