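import Pool.Agent.L0h50.UT.Tr1

/-!
# The base field and the finite subextensions of the tower

Project UT (helper50).
-/

set_option autoImplicit false
set_option linter.all false

open Module NumberField IsDedekindDomain IntermediateField
open Pool.Agent.TeamU Pool.Agent.H718R3 Pool.Agent.Y800 Pool.Agent.Y802.TS

namespace Pool.Agent.L0h50.UT

attribute [local instance 10] DivisionRing.toRatAlgebra

/-- unramified over an unramified prime -/
theorem unrQ_of_unr {k E : Type} [Field k] [NumberField k] [Field E] [NumberField E] [Algebra k E]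
    {q : ℕ} (hq : q.Prime) (h : UnrQ k q)
    (hu : ∀ P : HeightOneSpectrum (𝓞 E), (q : 𝓞 E) ∈ P.asIdeal → TeamU.Unr k P) :
    UnrQ E q := by
  intro P hP hqP hq2
  have hP0 : P ≠ ⊥ := by
    rintro rfl
    rw [Ideal.mem_bot] at hqP
    exact hq.ne_zero (by exact_mod_cast hqP)
  let P' : HeightOneSpectrum (𝓞 E) := ⟨P, hP, hP0⟩
  obtain ⟨v, hv⟩ := exists_under k E P'
  have hqv : (q : 𝓞 k) ∈ v.asIdeal := by
    have h1 : v.asIdeal = P.comap (algebraMap (𝓞 k) (𝓞 E)) := hv.symm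
    rw [h1, Ideal.mem_comap, map_natCast]
    exact hqP
  apply h v.asIdeal v.isPrime hqv
  have h2 := hu P' hqP v hv ((q : ℕ) : k)
  have h3 : P'.intValuation (q : 𝓞 E) = v.intValuation (q : 𝓞 k) := by
    have e0 : algebraMap (𝓞 E) E (q : 𝓞 E) = ((q : ℕ) : E) := map_natCast _ q
    have e1 : algebraMap k E ((q : ℕ) : k) = ((q : ℕ) : E) := map_natCast _ q
    have e2 : algebraMap (𝓞 k) k (q : 𝓞 k) = ((q : ℕ) : k) := map_natCast _ q
    have h5 : P'.valuation E (algebraMap (𝓞 E) E (q : 𝓞 E)) =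
        v.valuation k (algebraMap (𝓞 k) k (q : 𝓞 k)) := by
      rw [e0, e2, ← h2, e1]
    rwa [HeightOneSpectrum.valuation_of_algebraMap,
      HeightOneSpectrum.valuation_of_algebraMap] at h5
  have h4 : P'.intValuation (q : 𝓞 E) ≤ WithZero.exp (-((2 : ℕ) : ℤ)) :=
    (HeightOneSpectrum.intValuation_le_pow_iff_mem _ _ _).2 hq2
  rw [h3] at h4
  exact (HeightOneSpectrum.intValuation_le_pow_iff_mem _ _ _).1 h4

theorem unrQ_rat {q : ℕ} (hq : q.Prime) : UnrQ ℚ q := by
  intro P hP hqP hq2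
  let e : 𝓞 ℚ ≃+* ℤ := Rat.ringOfIntegersEquiv
  let I : Ideal ℤ := P.map (e : 𝓞 ℚ →+* ℤ)
  have hI : I.IsPrime := Ideal.map_isPrime_of_equiv e
  have h1 : (q : ℤ) ∈ I := by
    have := Ideal.mem_map_of_mem (e : 𝓞 ℚ →+* ℤ) hqP
    rwa [map_natCast] at this
  have h2 : (q : ℤ) ∈ I ^ 2 := by
    have := Ideal.mem_map_of_mem (e : 𝓞 ℚ →+* ℤ) hq2
    rwa [map_natCast, Ideal.map_pow] at this
  have h3 : I = Ideal.span {(q : ℤ)} := by
    have hmax : (Ideal.span {(q : ℤ)}).IsMaximal :=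
      PrincipalIdealRing.isMaximal_of_irreducible (Nat.prime_iff_prime_int.1 hq).irreducible
    refine (hmax.eq_of_le hI.ne_top ?_).symm
    rw [Ideal.span_singleton_le_iff_mem]
    exact h1
  rw [h3, Ideal.span_singleton_pow, Ideal.mem_span_singleton] at h2
  have h4 : (q ^ 2 : ℕ) ∣ q := by exact_mod_cast h2
  have h5 := Nat.le_of_dvd hq.pos h4
  have h6 := hq.two_le
  nlinarith

/-- the base field is unramified outside the ten primes -/
theorem unrQ_base {k : Type} [Field k] [NumberField k] (hk : finrank ℚ k = 2) (h2 : TwoSplit k)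
    (s : k) (hs : s ^ 2 = ((NT.qt.prod : ℕ) : k)) {q : ℕ} (hq : q.Prime) (hqD : q ∉ D10) :
    UnrQ k q := by
  by_cases hq2 : q = 2
  · subst hq2
    intro P hP hqP hq2
    have hP0 : P ≠ ⊥ := by
      rintro rfl
      rw [Ideal.mem_bot] at hqP
      norm_num at hqP
    exact (h2 ⟨P, hP, hP0⟩ (by exact_mod_cast hqP)).2 (by exact_mod_cast hq2)
  · apply unrQ_of_unr hq (unrQ_rat hq)
    have hsi : IsIntegral ℤ s := by
      apply IsIntegral.of_pow (n := 2) (by norm_num)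
      rw [hs]
      have h0 := isIntegral_algebraMap (R := ℤ) (A := k) (x := ((NT.qt.prod : ℕ) : ℤ))
      rwa [map_natCast] at h0
    let θ : 𝓞 k := ⟨s, hsi⟩
    have hθ : θ ^ 2 = ((NT.qt.prod : ℕ) : 𝓞 k) := by
      apply RingOfIntegers.ext
      change s ^ 2 = algebraMap (𝓞 k) k ((NT.qt.prod : ℕ) : 𝓞 k)
      rw [hs, map_natCast]
    have hcop : Nat.Coprime q (4 * NT.qt.prod) := by
      rw [Nat.Prime.coprime_iff_not_dvd hq]
      intro hd
      rcases (hq.dvd_mul).1 hd with h | h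
      · have h4 : (4 : ℕ) = 2 ^ 2 := by norm_num
        rw [h4] at h
        exact hq2 ((Nat.prime_dvd_prime_iff_eq hq Nat.prime_two).1 (hq.dvd_of_dvd_pow h))
      · apply hqD
        obtain ⟨p, hp, hqp⟩ := (Prime.dvd_prod_iff hq.prime).1 h
        have hpp : p.Prime := by
          have : ∀ p ∈ NT.qt, p.Prime := by
            intro p hp
            simp only [NT.qt, List.mem_cons, List.not_mem_nil, or_false] at hp
            rcases hp with rfl | rfl | rfl | rfl | rfl | rfl | rfl | rfl | rfl | rfl <;> norm_num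
          exact this p hp
        rw [(Nat.prime_dvd_prime_iff_eq hq hpp).1 hqp]
        simp only [NT.qt, List.mem_cons, List.not_mem_nil, or_false] at hp
        simp only [D10, Set.mem_insert_iff, Set.mem_singleton_iff]
        exact hp
    intro P hqP
    refine unr_of_deriv hk P θ 0 (-((NT.qt.prod : ℕ) : 𝓞 ℚ)) ?_ ?_ ?_
    · rw [hθ, map_zero, zero_mul, sub_zero, map_neg, map_natCast, add_neg_cancel]
    · rintro ⟨r, hr⟩
      have hr' : algebraMap ℚ k r = s := hr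
      apply NT.qt_prod_not_sq_rat r
      apply (algebraMap ℚ k).injective
      rw [map_pow, hr', hs, map_natCast]
    · rw [map_zero, sub_zero]
      intro hmem
      have h3 : ((4 * NT.qt.prod : ℕ) : 𝓞 k) ∈ P.asIdeal := by
        have h4 : ((4 * NT.qt.prod : ℕ) : 𝓞 k) = (2 * θ) * (2 * θ) := by
          push_cast
          rw [← Nat.cast_list_prod, ← hθ]
          ring
        rw [h4]
        exact P.asIdeal.mul_mem_left _ hmem
      apply P.isPrime.ne_top
      rw [Ideal.eq_top_iff_one]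
      have h5 := (Nat.isCoprime_iff_coprime.2 hcop).map (Int.castRingHom (𝓞 k))
      obtain ⟨a, b, hab⟩ := h5
      rw [← hab]
      refine P.asIdeal.add_mem (P.asIdeal.mul_mem_left _ ?_) (P.asIdeal.mul_mem_left _ ?_)
      · rw [eq_intCast, Int.cast_natCast]
        exact hqP
      · rw [eq_intCast, Int.cast_natCast]
        exact h3

/-! ### The condition modulo 8 -/

theorem mod8 {q : ℕ} (hq : q.Prime) (hq2 : q ≠ 2) (P : Ideal ZBar) (hP : P.IsMaximal)
    (hqP : (q : ZBar) ∈ P) (z : ZBar) (hz : z ^ 4 = -1) (h : z - z ^ q ∈ P) : q % 8 = 1 := by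
  by_contra hne
  have hodd : q % 2 = 1 := hq.eq_two_or_odd.resolve_left hq2
  have h8 : z ^ 8 = 1 := by
    have : z ^ 8 = (z ^ 4) ^ 2 := by ring
    rw [this, hz]
    ring
  have hzq : z ^ q = z ^ (q % 8) := by
    conv_lhs => rw [← Nat.div_add_mod q 8]
    rw [pow_add, pow_mul, h8, one_pow, one_mul]
  have h2 : (2 : ZBar) ∈ P := by
    rw [hzq] at h
    have h3 : q % 8 = 3 ∨ q % 8 = 5 ∨ q % 8 = 7 := by omega
    rcases h3 with h3 | h3 | h3
    · rw [h3] at h
      have h4 : (2 : ZBar) = (z ^ 7 * (1 + z ^ 2)) * (z - z ^ 3) := by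
        have : (z ^ 7 * (1 + z ^ 2)) * (z - z ^ 3) = z ^ 8 * (1 - z ^ 4) := by ring
        rw [this, h8, hz]
        ring
      rw [h4]
      exact P.mul_mem_left _ h
    · rw [h3] at h
      have h4 : (2 : ZBar) = z ^ 7 * (z - z ^ 5) := by
        have : z ^ 7 * (z - z ^ 5) = z ^ 8 * (1 - z ^ 4) := by ring
        rw [this, h8, hz]
        ring
      rw [h4]
      exact P.mul_mem_left _ h
    · rw [h3] at h
      have h4 : (2 : ZBar) = (z ^ 7 * (1 - z ^ 2)) * (z - z ^ 7) := by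
        have : (z ^ 7 * (1 - z ^ 2)) * (z - z ^ 7) =
            z ^ 8 * (1 - z ^ 2 - z ^ 4 * z ^ 2 + z ^ 8) := by ring
        rw [this, h8, hz]
        ring
      rw [h4]
      exact P.mul_mem_left _ h
  apply hP.ne_top
  rw [Ideal.eq_top_iff_one]
  obtain ⟨m, hm⟩ : ∃ m, q = 2 * m + 1 := ⟨q / 2, by omega⟩
  have h5 : (1 : ZBar) = (q : ZBar) - 2 * (m : ZBar) := by
    rw [hm]
    push_cast
    ring
  rw [h5]
  exact P.sub_mem hqP (P.mul_mem_right _ h2)

theorem exists_zeta : ∃ z : ZBar, z ^ 4 = -1 := by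
  obtain ⟨z, hz⟩ := IsAlgClosed.exists_pow_nat_eq (-1 : AlgebraicClosure ℚ) (n := 4) (by norm_num)
  have hi : IsIntegral ℤ z := by
    apply IsIntegral.of_pow (n := 4) (by norm_num)
    rw [hz]
    exact isIntegral_one.neg
  refine ⟨⟨z, hi⟩, ?_⟩
  apply RingOfIntegers.ext
  exact hz

/-! ### The finite subextensions -/

theorem cover_aux {k : Type} [Field k] [NumberField k]
    (e : AlgebraicClosure k ≃ₐ[ℚ] AlgebraicClosure ℚ) (M : IntermediateField k (AlgebraicClosure k))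
    [IsGalois k M] (hM : NT.Tow k M) (hk : finrank ℚ k = 2)
    (hunr : ∀ q : ℕ, q.Prime → q ∉ D10 → UnrQ k q) (Lf : IntermediateField k M) [Normal k Lf]
    (N : IntermediateField ℚ (AlgebraicClosure ℚ)) (hN : N ≤ img e (lift Lf))
    (hNf : FiniteDimensional ℚ N) :
    ∃ E : IntermediateField ℚ (AlgebraicClosure ℚ), N ≤ E ∧ img e ⊥ ≤ E ∧ E ≤ img e (lift Lf) ∧
      ∃ _ : NumberField E, IsTotallyReal E ∧ TwoSplit E ∧ (∃ m : ℕ, finrank ℚ E = 2 ^ m) ∧
        (∀ σ : GQ, (∀ x ∈ img e ⊥, σ x = x) → ∀ y ∈ E, σ y ∈ E) ∧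
        ∀ q : ℕ, q.Prime → q ∉ D10 → UnrQ E q := by
  obtain ⟨α, hα⟩ := Field.exists_primitive_element ℚ N
  obtain ⟨x, hx, hxα⟩ := (mem_img e).1 (hN α.2)
  have hxM : x ∈ M := lift_le Lf hx
  have hfd : FiniteDimensional k (k⟮(⟨x, hxM⟩ : M)⟯) :=
    adjoin.finiteDimensional (Algebra.IsIntegral.isIntegral (R := k) (⟨x, hxM⟩ : M))
  obtain ⟨L1, ⟨i1, h1⟩, h2⟩ := hM.cover (k⟮(⟨x, hxM⟩ : M)⟯) hfd
  have hxL : (⟨x, hxM⟩ : M) ∈ L1 := h2 (mem_adjoin_simple_self k _)
  have hgal := h1.galois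
  have hn1 : Normal k L1 := hgal.to_normal
  let E' : IntermediateField k M := L1 ⊓ Lf
  have hnE : Normal k E' := IntermediateField.normal_inf k M L1 Lf
  have hfinL1 : FiniteDimensional k L1 := Module.Finite.of_restrictScalars_finite ℚ k L1
  have hxE : (⟨x, hxM⟩ : M) ∈ E' := ⟨hxL, (mem_lift _).1 hx⟩
  let E : IntermediateField ℚ (AlgebraicClosure ℚ) := img e (lift E')
  -- the homomorphism `E → L1`
  let ψ0 : L1 →ₐ[ℚ] AlgebraicClosure ℚ := RingHom.toRatAlgHom
    (((e : AlgebraicClosure k →+* AlgebraicClosure ℚ).comp (algebraMap M (AlgebraicClosure k))).comp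
      (algebraMap L1 M))
  have hle : E ≤ ψ0.fieldRange := by
    intro y hy
    obtain ⟨x', hx', rfl⟩ := (mem_img e).1 hy
    have hxM' : x' ∈ M := lift_le E' hx'
    have hx2 : (⟨x', hxM'⟩ : M) ∈ E' := (mem_lift _).1 hx'
    exact ⟨⟨⟨x', hxM'⟩, hx2.1⟩, rfl⟩
  have hfr : FiniteDimensional ℚ ψ0.fieldRange :=
    Module.Finite.equiv (AlgEquiv.ofInjectiveField ψ0).toLinearEquiv
  have hEf : FiniteDimensional ℚ E := by
    exact Module.Finite.of_injective (IntermediateField.inclusion hle).toLinearMap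
      (IntermediateField.inclusion hle).injective
  have iE : NumberField E := ⟨⟩
  let e3 : L1 ≃ₐ[ℚ] ψ0.fieldRange := AlgEquiv.ofInjectiveField ψ0
  let j : E →+* L1 := (e3.symm : ψ0.fieldRange →ₐ[ℚ] L1).toRingHom.comp
    (IntermediateField.inclusion hle).toRingHom
  letI : Algebra E L1 := j.toAlgebra
  refine ⟨E, ?_, ?_, ?_, iE, ?_, ?_, ?_, ?_, ?_⟩
  · intro y hy
    have h3 : ℚ⟮α⟯ ≤ E.comap N.val := by
      rw [adjoin_simple_le_iff]
      change ((α : N) : AlgebraicClosure ℚ) ∈ E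
      rw [← hxα]
      exact (mem_img e).2 ⟨x, (mem_lift (⟨⟨x, hxM⟩, hxE⟩ : E').1).2 hxE, rfl⟩
    rw [hα] at h3
    exact h3 (x := ⟨y, hy⟩) trivial
  · exact img_mono e bot_le
  · apply img_mono
    exact (IntermediateField.map_mono _ inf_le_right)
  · exact totallyReal_desc E L1 h1.real
  · exact twoSplit_desc E L1 h1.split2
  · obtain ⟨m, hm⟩ := h1.pow
    have h3 : finrank ℚ E ∣ 2 ^ (m + 1) := by
      have h4 : finrank ℚ L1 = 2 ^ (m + 1) := by
        rw [← finrank_mul_finrank ℚ k L1, hk, hm, pow_succ, mul_comm]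
      rw [← h4]
      exact ⟨_, (finrank_mul_finrank ℚ E L1).symm⟩
    obtain ⟨j, -, hj⟩ := (Nat.dvd_prime_pow Nat.prime_two).mp h3
    exact ⟨j, hj⟩
  · intro σ hσ y hy
    exact normal_img e M E' ⟨σ, (mem_Gk_iff e σ).2 hσ⟩ hy
  · intro q hq hqD
    have h3 : UnrQ L1 q := unrQ_of_unr hq (hunr q hq hqD) (fun P _ => h1.unr P)
    exact h3.sub

end Pool.Agent.L0h50.UT
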