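import Pool.Agent.L0h50.UT.StmG
import Pool.Agent.L0h50.UT.TwA
import Pool.Agent.L0h51.UT.EmbT

/-!
# Embeddings of completions

Project UT (helper50), with lemmas of helper51.
-/

set_option autoImplicit false
set_option linter.all false

open IsDedekindDomain WithZero Filter Topology NumberField

namespace Pool.Agent.L0h50.UT

open Pool.Agent.L0h51.UT (inc basis0)

variable {K M : Type} [Field K] [NumberField K] [Field M] [NumberField M] [Algebra K M]

theorem inc_cont {v : HeightOneSpectrum (𝓞 K)} {w : HeightOneSpectrum (𝓞 M)} {e : ℕ} (he : e ≠ 0)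
    (hv : ∀ x : K, w.valuation M (algebraMap K M x) = v.valuation K x ^ e) :
    Continuous (inc v w) := by
  apply continuous_of_continuousAt_zero
  rw [ContinuousAt, map_zero, (basis0 v).tendsto_iff (basis0 w)]
  intro n _
  refine ⟨n, trivial, fun x hx => ?_⟩
  have h1 : Valued.v (inc v w x) = Valued.v x ^ e := hv x.ofVal
  have h2 : Valued.v x < exp (-(n : ℤ)) := hx
  have h3 : (exp (-(n : ℤ)) : ℤᵐ⁰) ≤ 1 := by
    rw [← exp_zero, exp_le_exp]
    omega
  have h4 : Valued.v x ^ e ≤ Valued.v x := pow_le_of_le_one zero_le' (h2.le.trans h3) he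
  change Valued.v (inc v w x) < exp (-(n : ℤ))
  rw [h1]
  exact lt_of_le_of_lt h4 h2

theorem cpl : S_CPL := by
  intro K M _ _ _ _ _ w'
  obtain ⟨v, hv⟩ := TeamU.exists_under K M w'
  have hlies := TeamU.liesOver_of_over hv
  have hne := Ideal.IsDedekindDomain.ramificationIdx'_ne_zero_of_liesOver w'.asIdeal v.ne_bot
  have hc : Continuous (inc v w') := inc_cont hne fun x => TeamU.val_over hv x
  let ψ : (v.valuation K).Completion →+* (w'.valuation M).Completion :=
    UniformSpace.Completion.mapRingHom (inc v w') hc
  refine ⟨v, ((HeightOneSpectrum.adicCompletion.equiv M w').symm.toRingHom.comp ψ).comp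
    (HeightOneSpectrum.adicCompletion.equiv K v).toRingHom, fun x => ?_⟩
  have h1 : ψ (UniformSpace.Completion.coeRingHom (α := WithVal (v.valuation K))
      (WithVal.toVal _ x)) = UniformSpace.Completion.coeRingHom (α := WithVal (w'.valuation M))
      (inc v w' (WithVal.toVal _ x)) := UniformSpace.Completion.mapRingHom_coe hc _
  change (HeightOneSpectrum.adicCompletion.equiv M w').symm
    (ψ (UniformSpace.Completion.coeRingHom (α := WithVal (v.valuation K))
      (WithVal.toVal _ x))) = _
  rw [h1]
  rfl

end Pool.Agent.L0h50.UT
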