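import Pool.Agent.L0h50.UT.StmG
import Pool.Agent.L0h51.TM.Alg

/-!
# The trivial 2-Selmer group over subfields

Project UT (helper50).
-/

set_option autoImplicit false
set_option linter.all false

open Polynomial IsDedekindDomain NumberField
open scoped Classical

namespace Pool.Agent.L0h50.UT

open Pool.Agent.N874.QM (SelM)
open Pool.Agent.L0h51.TM (locIm_map)

theorem norm_neg {M : Type} [Field M] {f : M[X]} (hf : Irreducible f) (ho : Odd f.natDegree)
    (x : AdjoinRoot f) : Algebra.norm M (-x) = -Algebra.norm M x := by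
  haveI : Fact (Irreducible f) := ⟨hf⟩
  have h1 : Module.finrank M (AdjoinRoot f) = f.natDegree := by
    rw [(AdjoinRoot.powerBasis hf.ne_zero).finrank, AdjoinRoot.powerBasis_dim]
  have h2 : -x = algebraMap M (AdjoinRoot f) (-1) * x := by
    rw [map_neg, map_one]
    ring
  rw [h2, map_mul, Algebra.norm_algebraMap, h1, ho.neg_one_pow]
  ring

theorem subf (hC : S_CPL) (hN : S_NRM) : S_SUBF := by
  intro K M _ _ _ _ _ _ f hf ho hirr hsel h hcop hsq hloc hreal
  set i : K →+* M := algebraMap K M with hi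
  set fM : M[X] := f.map i with hfM
  haveI : Fact (Irreducible fM) := ⟨hirr⟩
  haveI : FiniteDimensional K M := Module.Finite.of_restrictScalars_finite ℚ K M
  have hfMm : fM.Monic := hf.map i
  have hcopM : IsCoprime (h.map i) fM := by
    have := hcop.map (mapRingHom i)
    simpa using this
  have hnorm : Algebra.norm M (AdjoinRoot.mk fM (h.map i)) = i (Algebra.norm K (AdjoinRoot.mk f h)) :=
    hN K M i f h hf
  obtain ⟨s, hs⟩ := hsel (h.map i) hcopM (by
      rw [hnorm]
      exact hsq.map i) (by
      intro w'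
      obtain ⟨w, j, hj⟩ := hC K M w'
      have h4 := locIm_map j (hloc w)
      have e3 : j.comp (algebraMap K (w.adicCompletion K)) =
          (algebraMap M (w'.adicCompletion M)).comp i := RingHom.ext hj
      rw [Polynomial.map_map, Polynomial.map_map, e3, ← Polynomial.map_map,
        ← Polynomial.map_map] at h4
      exact h4) (by
      intro ρ
      have h4 := hreal (ρ.comp i)
      rw [← Polynomial.map_map, ← Polynomial.map_map] at h4
      exact h4)
  -- reduce `s`
  obtain ⟨t, ht, htd⟩ : ∃ t : M[X], fM ∣ h.map i - t ^ 2 ∧ t.degree < fM.degree := by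
    refine ⟨s %ₘ fM, ?_, degree_modByMonic_lt s hfMm⟩
    have h1 : fM ∣ s - s %ₘ fM := ⟨s /ₘ fM, by
      have := modByMonic_add_div s fM
      linear_combination -this⟩
    have h2 : h.map i - (s %ₘ fM) ^ 2 = (h.map i - s ^ 2) + (s - s %ₘ fM) * (s + s %ₘ fM) := by
      ring
    rw [h2]
    exact dvd_add hs (Dvd.dvd.mul_right h1 _)
  have ht0 : AdjoinRoot.mk fM t ≠ 0 := by
    intro h0
    rw [AdjoinRoot.mk_eq_zero] at h0
    have h1 : fM ∣ h.map i := by
      have h2 : h.map i = (h.map i - t ^ 2) + t * t := by ring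
      rw [h2]
      exact dvd_add ht (Dvd.dvd.mul_right h0 _)
    exact hirr.not_isUnit (hcopM.isUnit_of_dvd' h1 dvd_rfl)
  have hn0 : Algebra.norm M (AdjoinRoot.mk fM t) ≠ 0 := by
    haveI : Module.Finite M (AdjoinRoot fM) := (AdjoinRoot.powerBasis hirr.ne_zero).finite
    rwa [Ne, Algebra.norm_eq_zero_iff]
  obtain ⟨c, hc⟩ := hsq
  have hn2 : Algebra.norm M (AdjoinRoot.mk fM t) ^ 2 = i c ^ 2 := by
    rw [← map_pow, ← map_pow, ← AdjoinRoot.mk_eq_mk.2 ht, hnorm, hc]
    rw [← map_pow]
    congr 1
    ring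
  have hnr : ∃ d : K, Algebra.norm M (AdjoinRoot.mk fM t) = i d := by
    rcases sq_eq_sq_iff_eq_or_eq_neg.1 hn2 with h1 | h1
    · exact ⟨c, h1⟩
    · exact ⟨-c, by rw [h1, map_neg]⟩
  obtain ⟨d, hd⟩ := hnr
  -- the polynomial is fixed
  have hfix : ∀ σ : M ≃ₐ[K] M, t.map (σ : M →+* M) = t := by
    intro σ
    have hσi : ((σ : M →ₐ[K] M) : M →+* M).comp i = i := by
      ext x
      exact σ.commutes x
    have hσi' : (σ : M →+* M).comp i = i := hσi
    have e1 : fM.map (σ : M →+* M) = fM := by
      rw [hfM, Polynomial.map_map, hσi']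
    have e2 : (h.map i).map (σ : M →+* M) = h.map i := by
      rw [Polynomial.map_map, hσi']
    have h1 : fM ∣ h.map i - (t.map (σ : M →+* M)) ^ 2 := by
      have := Polynomial.map_dvd (σ : M →+* M) ht
      rwa [Polynomial.map_sub, Polynomial.map_pow, e1, e2] at this
    have h2 : fM ∣ (t.map (σ : M →+* M) - t) * (t.map (σ : M →+* M) + t) := by
      have h3 : (t.map (σ : M →+* M) - t) * (t.map (σ : M →+* M) + t) =
          (h.map i - t ^ 2) - (h.map i - (t.map (σ : M →+* M)) ^ 2) := by ring
      rw [h3]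
      exact dvd_sub ht h1
    have hdσ : (t.map (σ : M →+* M)).degree = t.degree :=
      degree_map_eq_of_injective (σ : M ≃+* M).injective t
    rcases (hirr.prime.dvd_or_dvd h2) with h3 | h3
    · have h4 := eq_zero_of_dvd_of_degree_lt h3 (lt_of_le_of_lt (degree_sub_le _ _)
        (by rw [hdσ, max_self]; exact htd))
      exact sub_eq_zero.1 h4
    · exfalso
      have h4 := eq_zero_of_dvd_of_degree_lt h3 (lt_of_le_of_lt (degree_add_le _ _)
        (by rw [hdσ, max_self]; exact htd))
      have h5 : t.map (σ : M →+* M) = -t := eq_neg_of_add_eq_zero_left h4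
      have h6 := hN M M (σ : M →+* M) fM t hfMm
      rw [e1, h5, map_neg, norm_neg hirr (by rw [hfM, natDegree_map]; exact ho), hd] at h6
      have h7 : (σ : M →+* M) (i d) = i d := σ.commutes d
      rw [h7] at h6
      have h8 : i d = 0 := by
        have h9 : (2 : M) * i d = 0 := by linear_combination -h6
        rcases mul_eq_zero.1 h9 with h10 | h10
        · exact absurd h10 two_ne_zero
        · exact h10
      rw [hd] at hn0
      exact hn0 h8
  have hcoef : ∀ n, t.coeff n ∈ Set.range i := by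
    intro n
    rw [IsGalois.mem_range_algebraMap_iff_fixed]
    intro σ
    have h1 := congrArg (fun p => p.coeff n) (hfix σ)
    simpa using h1
  have hl : t ∈ Polynomial.lifts i := (Polynomial.lifts_iff_coeff_lifts t).2 hcoef
  obtain ⟨t₀, ht₀⟩ := (Polynomial.mem_lifts t).1 hl
  refine ⟨t₀, ?_⟩
  rw [← Polynomial.map_dvd_map' i, Polynomial.map_sub, Polynomial.map_pow, ht₀]
  exact ht

end Pool.Agent.L0h50.UT
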