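import Pool.Agent.L0h51.UT.Done
import Pool.Agent.L0h50.UT.Subf

/-!
# The count, for all the subfields of the extensions `M`

Project UT (helper50), after `L0h51/UT/Fin.lean` (helper51).
-/

set_option autoImplicit false
set_option linter.all false

open Polynomial IsDedekindDomain NumberField WithZero Module
open scoped Classical IntermediateField

namespace Pool.Agent.L0h50.UT

open Pool.Agent.N783.PF
open Pool.Agent.N352.PJ (dd)
open Pool.Agent.N874.QM (SelC ShaC SelM)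
open Pool.Agent.L0h51.UT (mainX up goodX_of)
open Pool.Agent.N61.PF

/-- `K` is a subfield, over `F`, of one of the extensions `M`. -/
def SubSpl (F K : Type) [Field F] [NumberField F] [Field K] [NumberField K] [Algebra F K]
    (D T : Set ℕ) : Prop :=
  ∃ (M : Type) (_ : Field M) (_ : NumberField M) (_ : Algebra F M) (_ : Algebra K M)
    (_ : IsScalarTower F K M), Spl F M D T

theorem uni_sub (hS : S_SUBF) {F : Type} [Field F] [NumberField F] {D T : Set ℕ} {f : (𝓞 F)[X]}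
    {B : ℕ} (hf : Ht 1 B f) (h : Uni (fun M _ _ _ => Spl F M D T) f) :
    Uni (fun K _ _ _ => SubSpl F K D T) f := by
  intro K _ _ _ hK
  obtain ⟨M, _, _, _, _, _, hM⟩ := hK
  obtain ⟨h1, h2⟩ := h M hM
  haveI := hM.two.gal
  haveI : FiniteDimensional F M := Module.Finite.of_restrictScalars_finite ℚ F M
  haveI : IsGalois K M := IsGalois.tower_top_of_isGalois F K M
  have e : ((fF f).map (algebraMap F K)).map (algebraMap K M) = (fF f).map (algebraMap F M) := by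
    rw [Polynomial.map_map, ← IsScalarTower.algebraMap_eq]
  have hm : (fF f).Monic := hf.mon.map _
  have hd : (fF f).natDegree = 3 := by
    rw [hf.mon.natDegree_map]
    exact hf.deg
  have hmK : ((fF f).map (algebraMap F K)).Monic := hm.map _
  have hirr : Irreducible (((fF f).map (algebraMap F K)).map (algebraMap K M)) := by
    rw [e]
    exact h1
  refine ⟨?_, ?_⟩
  · exact Monic.irreducible_of_irreducible_map (algebraMap K M) _ hmK hirr
  · refine hS K M _ hmK ?_ hirr ?_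
    · rw [hm.natDegree_map, hd]
      decide
    · rw [e]
      exact h2

/-- The theorem for all the subfields. -/
theorem finS (hS : S_SUBF) (F : Type) [Field F] [NumberField F] (D T : Set ℕ) (hD : D.Finite)
    (hDp : ∀ p ∈ D, p.Prime) (hT : T.Infinite) (hT2 : ∀ q ∈ T, q.Prime ∧ q % 8 = 1) :
    ∃ c : ℝ, 0 < c ∧ ∃ Y₀ : ℝ,
    ∀ Y : ℝ, {p : 𝓞 F × 𝓞 F | Crv Y p}.Finite ∧ (Y₀ ≤ Y → 0 < {p : 𝓞 F × 𝓞 F | Crv Y p}.ncard ∧
      c * ({p : 𝓞 F × 𝓞 F | Crv Y p}.ncard : ℝ) ≤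
        ({p : 𝓞 F × 𝓞 F | Crv Y p ∧ ∀ (M : Type) [Field M] [NumberField M] [Algebra F M],
          SubSpl F M D T → Pool.Agent.L0h50.UT.GoodM M p}.ncard : ℝ)) := by
  have h0 : S_PTS := Pool.Agent.N490.PF.pts
  obtain ⟨-, C, hC, hlow, hup⟩ := h0 F
  obtain ⟨c, hc, B₀, hmain⟩ := mainX up F hD hDp hT hT2
  set d := Module.finrank ℚ F with hd
  set B₁ : ℕ := max B₀ 1 with hB₁
  refine ⟨c / (C ^ 2 * (C ^ 2 * 2 ^ (6 * d + 2))), by positivity, 27 * (B₁ : ℝ) ^ 6, ?_⟩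
  intro Y
  have hfin := crv_finite (F := F) h0 Y
  refine ⟨hfin, ?_⟩
  intro hY
  have hB₁1 : 1 ≤ B₁ := le_max_right _ _
  have hB₁r : (1 : ℝ) ≤ B₁ := by exact_mod_cast hB₁1
  have hY27 : 27 ≤ Y := by
    have : (1 : ℝ) ≤ (B₁ : ℝ) ^ 6 := one_le_pow₀ hB₁r
    linarith
  obtain ⟨B, hBB, hBY, hYB⟩ := exists_B B₁ Y hB₁1 hY
  have hB1 : 1 ≤ B := hB₁1.trans hBB
  obtain ⟨hfinH, hprop⟩ := hmain B ((le_max_left _ _).trans hBB)
  constructor
  · rw [Set.ncard_pos hfin]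
    refine ⟨(1, 1), ⟨?_, ?_, ?_⟩⟩
    · norm_num
    · intro 𝔭 hp _ hcon
      apply hp.ne_top
      rw [Ideal.eq_top_iff_one]
      exact Ideal.pow_le_self (by norm_num) hcon.1
    · intro σ
      constructor
      · simp; linarith
      · simp; linarith
  · have hu := crv_upper hC hup hB1 hYB
    have hl := ht_lower hC hlow hB1 hfinH
    rw [← hd] at hu hl
    -- the good polynomials give good curves
    have h5 : ({f : (𝓞 F)[X] | Ht 1 B f ∧ Irreducible (fF f) ∧ Min 1 f ∧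
          Uni (fun M _ _ _ => Spl F M D T) f}.ncard : ℝ) ≤
        ({p : 𝓞 F × 𝓞 F | Crv Y p ∧ ∀ (M : Type) [Field M] [NumberField M] [Algebra F M],
          SubSpl F M D T → Pool.Agent.L0h50.UT.GoodM M p}.ncard : ℝ) := by
      have h6 := Set.ncard_le_ncard_of_injOn (fun f : (𝓞 F)[X] => (f.coeff 1, f.coeff 0))
        (s := {f : (𝓞 F)[X] | Ht 1 B f ∧ Irreducible (fF f) ∧ Min 1 f ∧
          Uni (fun M _ _ _ => Spl F M D T) f})
        (t := {p : 𝓞 F × 𝓞 F | Crv Y p ∧ ∀ (M : Type) [Field M] [NumberField M] [Algebra F M],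
          SubSpl F M D T → Pool.Agent.L0h50.UT.GoodM M p})
        (fun f hf => ⟨crv_of_ht hf.1 hf.2.1 hf.2.2.1 hBY, fun M _ _ _ hM => goodX_of hf.1
          (uni_sub hS hf.1 hf.2.2.2 M hM).1 (uni_sub hS hf.1 hf.2.2.2 M hM).2⟩)
        (by
          intro f hf f' hf' h
          have e := Prod.mk.injEq .. ▸ h
          rw [eq_pol hf.1, eq_pol hf'.1, e.1, e.2])
        (hfin.subset fun p hp => hp.1)
      exact_mod_cast h6
    have hBd : 0 < (B : ℝ) ^ (5 * d) := by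
      have : (0 : ℝ) < B := by exact_mod_cast hB1
      positivity
    have h7 : ({p : 𝓞 F × 𝓞 F | Crv Y p}.ncard : ℝ) ≤
        (C ^ 2 * 2 ^ (6 * d + 2)) * (C ^ 2 * ({f : (𝓞 F)[X] | Ht 1 B f}.ncard : ℝ)) :=
      hu.trans (mul_le_mul_of_nonneg_left hl (by positivity))
    calc c / (C ^ 2 * (C ^ 2 * 2 ^ (6 * d + 2))) * ({p : 𝓞 F × 𝓞 F | Crv Y p}.ncard : ℝ)
        ≤ c / (C ^ 2 * (C ^ 2 * 2 ^ (6 * d + 2))) *
          ((C ^ 2 * 2 ^ (6 * d + 2)) * (C ^ 2 * ({f : (𝓞 F)[X] | Ht 1 B f}.ncard : ℝ))) :=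
          mul_le_mul_of_nonneg_left h7 (by positivity)
      _ = c * ({f : (𝓞 F)[X] | Ht 1 B f}.ncard : ℝ) := by
          field_simp
      _ ≤ _ := hprop.trans h5

end Pool.Agent.L0h50.UT
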