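import Pool.Agent.L0h50.UT.StmG

/-!
# The norm and base change

Project UT (helper50).
-/

set_option autoImplicit false
set_option linter.all false

open Polynomial
open scoped Classical
namespace Pool.Agent.L0h50.UT

theorem norm_eq_det {E : Type} [Field E] {f : E[X]} (hf : f.Monic) {n : ℕ} (hn : f.natDegree = n)
    (h : E[X]) : Algebra.norm E (AdjoinRoot.mk f h) =
      Matrix.det (Matrix.of fun (i j : Fin n) => ((h * X ^ (j : ℕ)) %ₘ f).coeff i) := by
  subst hn
  rw [Algebra.norm_eq_matrix_det (AdjoinRoot.powerBasisAux' hf)]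
  congr 1
  ext i j
  rw [Algebra.leftMulMatrix_eq_repr_mul, AdjoinRoot.powerBasisAux'_repr_apply_to_fun]
  have h1 : (AdjoinRoot.powerBasisAux' hf) j = AdjoinRoot.mk f (X ^ (j : ℕ)) := by
    have := (AdjoinRoot.powerBasis' hf).basis_eq_pow j
    rw [map_pow, AdjoinRoot.mk_X]
    exact this
  rw [h1, ← map_mul, AdjoinRoot.modByMonicHom_mk]
  rfl

theorem nrm : S_NRM := by
  intro E E' _ _ j f h hf
  rw [norm_eq_det hf rfl, norm_eq_det (hf.map j) (hf.natDegree_map j), RingHom.map_det]
  congr 1
  ext a b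
  simp only [Matrix.of_apply, RingHom.mapMatrix_apply, Matrix.map_apply]
  rw [← Polynomial.map_X j, ← Polynomial.map_pow, ← Polynomial.map_mul,
    ← Polynomial.map_modByMonic _ hf, coeff_map]

end Pool.Agent.L0h50.UT
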