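import Pool.Agent.N783.PF.Fin

/-!
# A positive proportion of all elliptic curves over a number field has rank zero over all finite layers of
# an infinite 2-tower: statements of the parts (descent, count)

Project UT (helper50), based on project PF (helper783) and project TW (helper874). `GoodF`, `GoodS`,
`Fam`, `Ht`, `LBad`, `Cg`, `sp`, `rd`, `fF`, `dsc` are in `N783/PF/Def.lean`, `IsGen`, `SqF`, `Ov` in
`N783/PF/Lat.lean`, `Dp`, `Min`, `SelZero` in `N783/PF/Loc.lean`, `Crv` in `N783/PF/Fin.lean`,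
`Ev`, `Sq1`, `U0` in `N874/PP/Def.lean`, `LocF` in `N874/JM/Stm.lean`, `SelM`, `SelC`, `ShaC` in
`N874/QM/Stm.lean`.
-/

set_option autoImplicit false
set_option linter.all false

open Polynomial IsDedekindDomain NumberField
open scoped Classical IntermediateField

namespace Pool.Agent.L0h50.UT

open Pool.Agent.N352.PJ (dd)
open Pool.Agent.N783.PF
open Pool.Agent.N783.PQ (LocIm)
open Pool.Agent.N874.PP (Ev Sq1 U0 sW)
open Pool.Agent.N874.JM (LocF)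
open Pool.Agent.N874.QM (SelM SelC ShaC)
open Pool.Agent.TH115.GD (Pt)

/-! ### The extensions `M` of `F` -/

section ext

variable {F : Type} [Field F] [NumberField F] {M : Type} [Field M] [NumberField M] [Algebra F M]

/-- The prime `w` of `M` is unramified over the prime `v` of `F`. -/
def Unr (v : HeightOneSpectrum (𝓞 F)) (w : HeightOneSpectrum (𝓞 M)) : Prop :=
  ∀ x : F, w.valuation M (algebraMap F M x) = v.valuation F x

/-- At the prime `w` of `M` every element of `M` can be approximated by elements of `F`. -/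
def Dns (F : Type) [Field F] [NumberField F] {M : Type} [Field M] [NumberField M] [Algebra F M]
    (w : HeightOneSpectrum (𝓞 M)) : Prop :=
  ∀ s : M, s ≠ 0 → ∃ s₀ : F, w.valuation M (s - algebraMap F M s₀) < w.valuation M s

end ext

/-- The extensions `M` of `F`, general conditions: Galois of 2-power degree, the places over `2` and the
real places split completely. -/
structure Two (F M : Type) [Field F] [NumberField F] [Field M] [NumberField M] [Algebra F M] :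
    Prop where
  gal : IsGalois F M
  pow : ∃ n : ℕ, Module.finrank F M = 2 ^ n
  two : ∀ v : HeightOneSpectrum (𝓞 F), (2 : 𝓞 F) ∈ v.asIdeal →
    Nonempty (M →ₐ[F] v.adicCompletion F)
  real : ∀ σ : F →+* ℝ, ∃ τ : M →+* ℝ, ∀ x : F, τ (algebraMap F M x) = σ x

/-- Conditions on the ramification and the splitting in `M`, relative to the polynomial `f` and to the
primes `𝔮 q`, `q ∈ S`. -/
structure Adm {F : Type} (M : Type) [Field F] [NumberField F] [Field M] [NumberField M]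
    [Algebra F M] (f : (𝓞 F)[X]) (S : Finset ℕ) (𝔮 : ℕ → Ideal (𝓞 F)) : Prop where
  two : Two F M
  ram : ∀ (v : HeightOneSpectrum (𝓞 F)) (w : HeightOneSpectrum (𝓞 M)), Ov v.asIdeal w →
    Unr v w ∨ Irreducible (rd v.asIdeal f)
  spl : ∀ q ∈ S, ∀ (v : HeightOneSpectrum (𝓞 F)) (w : HeightOneSpectrum (𝓞 M)),
    v.asIdeal = 𝔮 q → Ov v.asIdeal w → Unr v w ∧ Dns F w

/-! ### The fields `L = F(θ)` and `Ω = M(θ)` -/

/-- Part UTOP. The primes of `Ω = M(θ)` at which `f'(θ)` is a unit are unramified over `M`. -/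
def S_UTOP : Prop := ∀ (M Ω : Type) [Field M] [NumberField M] [Field Ω] [NumberField Ω]
  [Algebra M Ω] (f : (𝓞 M)[X]) (θ : Ω), f.Monic → aeval θ (fF f) = 0 → M⟮θ⟯ = ⊤ →
  ∀ 𝔓 : HeightOneSpectrum (𝓞 Ω), 𝔓.valuation Ω (aeval θ (derivative (fF f))) = 1 →
    ∃ w : HeightOneSpectrum (𝓞 M), Ov w.asIdeal 𝔓 ∧ Unr w 𝔓

/-- Part UP. The primes of `L` at which `f'(θ)` is a unit and over which `M / F` is unramified
are unramified in `Ω`; density. -/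
def S_UP : Prop := ∀ (F L M Ω : Type) [Field F] [NumberField F] [Field L] [NumberField L]
  [Field M] [NumberField M] [Field Ω] [NumberField Ω] [Algebra F L] [Algebra F M] [Algebra F Ω]
  [Algebra L Ω] [Algebra M Ω] [IsScalarTower F L Ω] [IsScalarTower F M Ω] (g : ℕ)
  (f : (𝓞 F)[X]) (θ : L), IsGen g f θ → M⟮algebraMap L Ω θ⟯ = ⊤ →
  ∀ (v : HeightOneSpectrum (𝓞 F)) (𝔓 : HeightOneSpectrum (𝓞 L)), Ov v.asIdeal 𝔓 →
    𝔓.valuation L (aeval θ (derivative (fF f))) = 1 →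
    (∀ w : HeightOneSpectrum (𝓞 M), Ov v.asIdeal w → Unr v w) →
    ∃ 𝔓' : HeightOneSpectrum (𝓞 Ω), Unr 𝔓 𝔓' ∧
      ((∀ w : HeightOneSpectrum (𝓞 M), Ov v.asIdeal w → Dns F w) → Dns L 𝔓')

/-- The conditions for the elements of `Ω = M(θ)`. -/
structure Cnd {F L : Type} (M : Type) {Ω : Type} [Field F] [NumberField F] [Field L]
    [NumberField L] [Field M] [NumberField M] [Field Ω] [NumberField Ω] [Algebra F L] [Algebra F M]
    [Algebra L Ω] [Algebra M Ω] [Algebra F Ω] (J : Finset ℕ) (𝔮 : ℕ → Ideal (𝓞 F))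
    (f : (𝓞 F)[X]) (θ : L) (x : Ω) : Prop where
  ev : ∀ (v : HeightOneSpectrum (𝓞 F)) (𝔓 : HeightOneSpectrum (𝓞 Ω)), Ov v.asIdeal 𝔓 →
    (2 : 𝓞 F) ∉ v.asIdeal → (∀ q ∈ J, (q : 𝓞 F) ∉ v.asIdeal) →
    𝔓.valuation Ω (algebraMap L Ω (aeval θ (derivative (fF f)))) = 1 → Ev 𝔓 x
  u0 : ∀ q ∈ J, ∀ 𝔓 : HeightOneSpectrum (𝓞 Ω), Ov (𝔮 q) 𝔓 →
    𝔓.valuation Ω (algebraMap L Ω θ) = 1 → U0 𝔓 ((q : Ω) * algebraMap L Ω θ) x
  two : ∀ v : HeightOneSpectrum (𝓞 F), (2 : 𝓞 F) ∈ v.asIdeal →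
    ∀ (ρ : M →ₐ[F] v.adicCompletion F) (h : M[X]), aeval (algebraMap L Ω θ) h = x →
      LocIm (v.adicCompletion F) ((fF f).map (algebraMap F (v.adicCompletion F)))
        (h.map (ρ : M →+* v.adicCompletion F))
  real : ∀ (τ : M →+* ℝ) (h : M[X]), aeval (algebraMap L Ω θ) h = x →
    LocIm ℝ ((fF f).map (τ.comp (algebraMap F M))) (h.map τ)

/-- Part CLO. The conditions are stable under products and under the automorphisms of `Ω / L`. -/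
def S_CLO : Prop := ∀ (F L M Ω : Type) [Field F] [NumberField F] [Field L] [NumberField L]
  [Field M] [NumberField M] [Field Ω] [NumberField Ω] [Algebra F L] [Algebra F M] [Algebra F Ω]
  [Algebra L Ω] [Algebra M Ω] [IsScalarTower F L Ω] [IsScalarTower F M Ω] (g : ℕ)
  (f : (𝓞 F)[X]) (θ : L) (J : Finset ℕ) (𝔮 : ℕ → Ideal (𝓞 F)), IsGen g f θ → IsGalois F M →
  M⟮algebraMap L Ω θ⟯ = ⊤ → Module.finrank M Ω = 2 * g + 1 →
  (∀ q ∈ J, ∀ 𝔓 : HeightOneSpectrum (𝓞 Ω), Ov (𝔮 q) 𝔓 →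
    𝔓.valuation Ω (algebraMap L Ω θ) = 1 → 𝔓.valuation Ω (q : Ω) = WithZero.exp (-1 : ℤ)) →
  (∀ x : Ω, x ≠ 0 → Cnd M J 𝔮 f θ (x ^ 2)) ∧
  (∀ x y : Ω, x ≠ 0 → y ≠ 0 → Cnd M J 𝔮 f θ x → Cnd M J 𝔮 f θ y → Cnd M J 𝔮 f θ (x * y)) ∧
  ∀ (σ : Ω ≃ₐ[L] Ω) (x : Ω), Cnd M J 𝔮 f θ x → Cnd M J 𝔮 f θ (σ x)

/-- Part QT. The primes of `Ω` over `𝔮 q` at which `θ` is a unit. -/
def S_QT : Prop := ∀ (g W : ℕ) (F L M Ω : Type) [Field F] [NumberField F] [Field L]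
  [NumberField L] [Field M] [NumberField M] [Field Ω] [NumberField Ω] [Algebra F L] [Algebra F M]
  [Algebra F Ω] [Algebra L Ω] [Algebra M Ω] [IsScalarTower F L Ω] [IsScalarTower F M Ω]
  (f : (𝓞 F)[X]) (θ : L) (S : Finset ℕ) (𝔮 : ℕ → Ideal (𝓞 F)) (r P : ℕ → (𝓞 F)[X]), 1 ≤ g →
  IsGen g f θ → SqF g f → GoodS g W S 𝔮 r P → (∀ q ∈ S, Cg (sp F q) f (P q)) →
  M⟮algebraMap L Ω θ⟯ = ⊤ → Adm M f S 𝔮 → ∀ q ∈ S, ∀ 𝔓 : HeightOneSpectrum (𝓞 Ω),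
  Ov (𝔮 q) 𝔓 → 𝔓.valuation Ω (algebraMap L Ω θ) = 1 →
    𝔓.valuation Ω (q : Ω) = WithZero.exp (-1 : ℤ) ∧
    (∀ c : 𝓞 F, c ∉ 𝔮 q → Sq1 𝔓 (algebraMap F Ω (c : F))) ∧
    ∃ v : HeightOneSpectrum (𝓞 F), ∃ w : HeightOneSpectrum (𝓞 M), v.asIdeal = 𝔮 q ∧
      Ov v.asIdeal w ∧ Ov w.asIdeal 𝔓 ∧ Unr v w ∧ Dns F w ∧ Unr w 𝔓

/-- Part TOP. Elements which are locally in the image, for the twist by `Dp J`, satisfy the
conditions. -/
def S_TOP : Prop := ∀ (g W : ℕ) (F L M Ω : Type) [Field F] [NumberField F] [Field L]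
  [NumberField L] [Field M] [NumberField M] [Field Ω] [NumberField Ω] [Algebra F L] [Algebra F M]
  [Algebra F Ω] [Algebra L Ω] [Algebra M Ω] [IsScalarTower F L Ω] [IsScalarTower F M Ω]
  (f : (𝓞 F)[X]) (θ : L) (S J : Finset ℕ) (𝔮 : ℕ → Ideal (𝓞 F)) (r P : ℕ → (𝓞 F)[X]), 1 ≤ g →
  IsGen g f θ → SqF g f → GoodS g W S 𝔮 r P → (∀ q ∈ S, Cg (sp F q) f (P q)) →
  M⟮algebraMap L Ω θ⟯ = ⊤ → Module.finrank M Ω = 2 * g + 1 → Adm M f S 𝔮 → J ⊆ S →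
  ∀ h : M[X], aeval ((Dp J : Ω) * algebraMap L Ω θ) h ≠ 0 →
    (∀ w : HeightOneSpectrum (𝓞 M), LocF (w.adicCompletion M)
      ((fF (f.scaleRoots ((Dp J : ℕ) : 𝓞 F))).map (algebraMap F M)) h) →
    (∀ τ : M →+* ℝ, LocIm ℝ
      (((fF (f.scaleRoots ((Dp J : ℕ) : 𝓞 F))).map (algebraMap F M)).map τ) (h.map τ)) →
    Cnd M J 𝔮 f θ (aeval ((Dp J : Ω) * algebraMap L Ω θ) h)

/-- The strict statement for `J`: the conclusion of `S_CORE`. -/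
def Core {F L : Type} [Field F] [NumberField F] [Field L] [NumberField L] [Algebra F L]
    (J : Finset ℕ) (𝔮 : ℕ → Ideal (𝓞 F)) (f : (𝓞 F)[X]) (θ : L) : Prop :=
  ∀ h : F[X], aeval θ h ≠ 0 → IsSquare (Algebra.norm F (aeval θ h)) →
    (∀ 𝔓 : HeightOneSpectrum (𝓞 L), (∀ q ∈ J, Ov (𝔮 q) 𝔓 → 𝔓.valuation L θ ≠ 1) →
      Ev 𝔓 (aeval θ h)) →
    (∀ q ∈ J, ∀ 𝔓 : HeightOneSpectrum (𝓞 L), Ov (𝔮 q) 𝔓 → 𝔓.valuation L θ = 1 →
      U0 𝔓 ((q : L) * θ) (aeval θ h)) →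
    (∀ w : HeightOneSpectrum (𝓞 F), (2 : 𝓞 F) ∈ w.asIdeal →
      LocF (w.adicCompletion F) (fF f) h) →
    (∀ σ : F →+* ℝ, LocIm ℝ ((fF f).map σ) (h.map σ)) → IsSquare (aeval θ h)

/-- Part BAS. Elements of `L` which satisfy the conditions are squares. -/
def S_BAS : Prop := ∀ (g W : ℕ) (F L M Ω : Type) [Field F] [NumberField F] [Field L]
  [NumberField L] [Field M] [NumberField M] [Field Ω] [NumberField Ω] [Algebra F L] [Algebra F M]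
  [Algebra F Ω] [Algebra L Ω] [Algebra M Ω] [IsScalarTower F L Ω] [IsScalarTower F M Ω]
  (f f₁ : (𝓞 F)[X]) (θ : L) (S J : Finset ℕ) (𝔮 : ℕ → Ideal (𝓞 F)) (r P : ℕ → (𝓞 F)[X]),
  1 ≤ g → IsGen g f θ → SqF g f → GoodF g W f₁ → Cg (sp F W) f f₁ → GoodS g W S 𝔮 r P →
  (∀ q ∈ S, Cg (sp F q) f (P q)) → M⟮algebraMap L Ω θ⟯ = ⊤ → Adm M f S 𝔮 → J ⊆ S →
  Core J 𝔮 f θ → ∀ x : L, x ≠ 0 → Cnd M J 𝔮 f θ (algebraMap L Ω x) →
    IsSquare (Algebra.norm F x) → IsSquare x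

/-- Part SEL. The 2-Selmer group over `M` of the twist is zero. -/
def S_SEL : Prop := ∀ (g W : ℕ) (F L M : Type) [Field F] [NumberField F] [Field L]
  [NumberField L] [Field M] [NumberField M] [Algebra F L] [Algebra F M]
  (f f₁ : (𝓞 F)[X]) (θ : L) (S J : Finset ℕ) (𝔮 : ℕ → Ideal (𝓞 F)) (r P : ℕ → (𝓞 F)[X]),
  1 ≤ g → IsGen g f θ → SqF g f → GoodF g W f₁ → Cg (sp F W) f f₁ → GoodS g W S 𝔮 r P →
  (∀ q ∈ S, Cg (sp F q) f (P q)) → Irreducible (fF f) → Adm M f S 𝔮 → J ⊆ S →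
  Core J 𝔮 f θ →
  Irreducible ((fF (f.scaleRoots ((Dp J : ℕ) : 𝓞 F))).map (algebraMap F M)) ∧
  SelM M ((fF (f.scaleRoots ((Dp J : ℕ) : 𝓞 F))).map (algebraMap F M))

/-! ### The count -/

/-- `f` has trivial 2-Selmer group over all `M` which satisfy the condition `C`. -/
def Uni {F : Type} [Field F] [NumberField F]
    (C : ∀ (M : Type) [Field M] [NumberField M] [Algebra F M], Prop) (f : (𝓞 F)[X]) : Prop :=
  ∀ (M : Type) [Field M] [NumberField M] [Algebra F M], C M →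
    Irreducible ((fF f).map (algebraMap F M)) ∧ SelM M ((fF f).map (algebraMap F M))

/-- The condition on the ramification and the splitting in `M`: unramified over the primes which contain
no `p ∈ D`, and the primes over `q ∈ S` split completely. -/
structure Spl (F M : Type) [Field F] [NumberField F] [Field M] [NumberField M]
    [Algebra F M] (D : Set ℕ) (S : Set ℕ) : Prop where
  two : Two F M
  ram : ∀ (v : HeightOneSpectrum (𝓞 F)) (w : HeightOneSpectrum (𝓞 M)), Ov v.asIdeal w →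
    Unr v w ∨ ∃ p ∈ D, (p : 𝓞 F) ∈ v.asIdeal
  spl : ∀ q ∈ S, ∀ (v : HeightOneSpectrum (𝓞 F)) (w : HeightOneSpectrum (𝓞 M)),
    (q : 𝓞 F) ∈ v.asIdeal → Ov v.asIdeal w → Unr v w ∧ Dns F w

/-- Part FAM. Many `f` in the family; `W` is large and divisible by the elements of `D`, and
`f₁` is irreducible modulo all the prime ideals over `W` which do not contain `2 g + 1`. -/
def S_FAMX : Prop := ∀ (F : Type) [Field F] [NumberField F] (g : ℕ), 1 ≤ g →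
  ∀ K : ℕ, ∃ (W : ℕ) (f₁ : (𝓞 F)[X]), K ≤ W ∧ GoodF g W f₁ ∧
  (∀ p : ℕ, p.Prime → p ≤ K → p ∣ W) ∧
  (∀ 𝔭 : Ideal (𝓞 F), 𝔭.IsPrime → (W : 𝓞 F) ∈ 𝔭 → ((2 * g + 1 : ℕ) : 𝓞 F) ∉ 𝔭 →
    Irreducible (rd 𝔭 f₁)) ∧
  ∃ c : ℝ, 0 < c ∧ ∀ (S : Finset ℕ) (𝔮 : ℕ → Ideal (𝓞 F)) (h P : ℕ → (𝓞 F)[X]),
    GoodS g W S 𝔮 h P → ∃ B₀ : ℕ, ∀ B ≥ B₀,
    c * (B : ℝ) ^ (Module.finrank ℚ F * dd g) ≤
      (((∏ q ∈ S, q ^ (2 * g)) ^ Module.finrank ℚ F : ℕ) : ℝ) *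
      ({f : (𝓞 F)[X] | Fam g B W f₁ S P f}.ncard : ℝ)

/-- Part EXS. Existence of `S` in a given infinite set of primes congruent to `1` modulo `8`. -/
def S_EXSX : Prop := ∀ (F : Type) [Field F] [NumberField F] (g W : ℕ), 1 ≤ g →
  ∀ T : Set ℕ, T.Infinite → (∀ q ∈ T, q.Prime ∧ q % 8 = 1) → ∀ m : ℕ,
  ∃ (S : Finset ℕ) (𝔮 : ℕ → Ideal (𝓞 F)) (h P : ℕ → (𝓞 F)[X]),
    GoodS g W S 𝔮 h P ∧ S.card = m ∧ ∀ q ∈ S, q ∈ T

/-- Part MAI. A positive proportion. -/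
def S_MAIX : Prop := ∀ (g : ℕ) (F : Type) [Field F] [NumberField F], 1 ≤ g →
  ∀ (D T : Set ℕ), D.Finite → (∀ p ∈ D, p.Prime ∧ ¬ p ∣ 2 * g + 1) → T.Infinite →
  (∀ q ∈ T, q.Prime ∧ q % 8 = 1) →
  ∃ c : ℝ, 0 < c ∧ ∃ B₀ : ℕ, ∀ B ≥ B₀,
  {f : (𝓞 F)[X] | Ht g B f}.Finite ∧ c * ({f : (𝓞 F)[X] | Ht g B f}.ncard : ℝ) ≤
    ({f : (𝓞 F)[X] | Ht g B f ∧ Irreducible (fF f) ∧ Min g f ∧
      Uni (fun M _ _ _ => Spl F M D T) f}.ncard : ℝ)

/-! ### Elliptic curves -/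

/-- Trivial 2-Selmer group, no 2-part in the Tate-Shafarevich group, finitely many points, their
number is odd, over `M`. -/
structure GoodM {F : Type} (M : Type) [Field F] [NumberField F] [Field M] [NumberField M]
    [Algebra F M] (p : 𝓞 F × 𝓞 F) : Prop where
  sel : SelC (sW (algebraMap F M p.1) (algebraMap F M p.2))
  sha : ShaC (sW (algebraMap F M p.1) (algebraMap F M p.2))
  fin : Finite (Pt (sW (algebraMap F M p.1) (algebraMap F M p.2)) M)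
  odd : Odd (Nat.card (Pt (sW (algebraMap F M p.1) (algebraMap F M p.2)) M))

/-- Part FIN. The theorem for elliptic curves. -/
def S_FINX : Prop := ∀ (F : Type) [Field F] [NumberField F] (D T : Set ℕ), D.Finite →
  (∀ p ∈ D, p.Prime ∧ p ≠ 3) → T.Infinite → (∀ q ∈ T, q.Prime ∧ q % 8 = 1) →
  ∃ c : ℝ, 0 < c ∧ ∃ Y₀ : ℝ,
  ∀ Y : ℝ, {p : 𝓞 F × 𝓞 F | Crv Y p}.Finite ∧ (Y₀ ≤ Y → 0 < {p : 𝓞 F × 𝓞 F | Crv Y p}.ncard ∧
    c * ({p : 𝓞 F × 𝓞 F | Crv Y p}.ncard : ℝ) ≤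
      ({p : 𝓞 F × 𝓞 F | Crv Y p ∧ ∀ (M : Type) [Field M] [NumberField M] [Algebra F M],
        Spl F M D T → GoodM M p}.ncard : ℝ))

end Pool.Agent.L0h50.UT
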