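import Pool.Agent.L0h50.UT.Stm

/-!
# Subfields: statements of the parts

Project UT (helper50). From the trivial 2-Selmer group over `M` to the trivial 2-Selmer group over the
fields `K ⊆ M` with `M / K` Galois.
-/

set_option autoImplicit false
set_option linter.all false

open Polynomial IsDedekindDomain NumberField
open scoped Classical

namespace Pool.Agent.L0h50.UT

open Pool.Agent.N874.QM (SelM)

/-- Part CPL. The embedding of completions. -/
def S_CPL : Prop := ∀ (K M : Type) [Field K] [NumberField K] [Field M] [NumberField M]
  [Algebra K M] (w' : HeightOneSpectrum (𝓞 M)), ∃ (w : HeightOneSpectrum (𝓞 K))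
    (j : w.adicCompletion K →+* w'.adicCompletion M),
    ∀ x : K, j (algebraMap K (w.adicCompletion K) x) =
      algebraMap M (w'.adicCompletion M) (algebraMap K M x)

/-- Part NRM. The norm and base change. -/
def S_NRM : Prop := ∀ (E E' : Type) [Field E] [Field E'] (j : E →+* E') (f h : E[X]), f.Monic →
  Algebra.norm E' (AdjoinRoot.mk (f.map j) (h.map j)) = j (Algebra.norm E (AdjoinRoot.mk f h))

/-- Part SUBF. The trivial 2-Selmer group over a subfield. -/
def S_SUBF : Prop := ∀ (K M : Type) [Field K] [NumberField K] [Field M] [NumberField M]
  [Algebra K M] [IsGalois K M] (f : K[X]), f.Monic → Odd f.natDegree →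
  Irreducible (f.map (algebraMap K M)) → SelM M (f.map (algebraMap K M)) → SelM K f

end Pool.Agent.L0h50.UT
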