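import Pool.Agent.L0h50.UT.Stm
import Pool.Agent.Y802.TS.Tower

/-!
# The tower: statements of the parts

Project UT (helper50). `GQ`, `ZBar`, `InInertia`, `IsGeomFrob` are in `Y800/Defs.lean`, `IsTower` in
`Y802/TS/Tower.lean`, `TwoSplit` in `TeamU/BDefs.lean`.
-/

set_option autoImplicit false
set_option linter.all false

open Polynomial IsDedekindDomain NumberField
open scoped Classical IntermediateField

namespace Pool.Agent.L0h50.UT

attribute [local instance 10] DivisionRing.toRatAlgebra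

open Pool.Agent.N783.PF (Ov)
open Pool.Agent.Y800 (GQ ZBar InInertia IsGeomFrob)

/-! ### Finite level -/

section fin

variable (N : Type) [Field N] [NumberField N]

/-- The prime number `q` is unramified in `N`. -/
def UnrQ (q : ℕ) : Prop :=
  ∀ P : Ideal (𝓞 N), P.IsPrime → (q : 𝓞 N) ∈ P → (q : 𝓞 N) ∉ P ^ 2

/-- The prime number `q` splits completely in `N`. -/
def SplQ (q : ℕ) : Prop :=
  UnrQ N q ∧ ∀ P : Ideal (𝓞 N), P.IsPrime → (q : 𝓞 N) ∈ P → Nat.card (𝓞 N ⧸ P) = q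

end fin

/-- The ten primes which divide the discriminant of the real quadratic base field. -/
def D10 : Set ℕ := {17, 41, 73, 89, 97, 113, 137, 193, 233, 241}

/-- `L / ℚ` is an infinite Galois pro-2 extension, totally real, unramified outside the ten primes in
`D10`, in which `2` and the primes in `T` split completely (conditions for the finite Galois
subextensions). -/
structure IsTw (L : IntermediateField ℚ (AlgebraicClosure ℚ)) (T : Set ℕ) : Prop where
  inf : ¬ FiniteDimensional ℚ L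
  gal : ∀ (σ : GQ) (y : AlgebraicClosure ℚ), y ∈ L → σ y ∈ L
  pow : ∀ N : IntermediateField ℚ (AlgebraicClosure ℚ), N ≤ L → FiniteDimensional ℚ N →
    IsGalois ℚ N → ∃ m : ℕ, Module.finrank ℚ N = 2 ^ m
  real : ∀ N : IntermediateField ℚ (AlgebraicClosure ℚ), N ≤ L →
    ∀ (φ : N →+* ℂ) (y : N), (φ y).im = 0
  unr : ∀ N : IntermediateField ℚ (AlgebraicClosure ℚ), N ≤ L → ∀ [NumberField N],
    IsGalois ℚ N → ∀ q : ℕ, q.Prime → q ∉ D10 → UnrQ N q
  spl : ∀ N : IntermediateField ℚ (AlgebraicClosure ℚ), N ≤ L → ∀ [NumberField N],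
    IsGalois ℚ N → ∀ q : ℕ, q = 2 ∨ q ∈ T → SplQ N q
  infT : T.Infinite
  pr : ∀ q ∈ T, q.Prime ∧ q % 8 = 1

/-- Part TWR. Existence of the tower. -/
def S_TWR : Prop := ∃ (L : IntermediateField ℚ (AlgebraicClosure ℚ)) (T : Set ℕ), IsTw L T

/-- `M` is the compositum of `F` and of a finite Galois extension of `ℚ` inside `L`. -/
def Layer (L : IntermediateField ℚ (AlgebraicClosure ℚ)) (F M : Type) [Field F] [Field M]
    [Algebra F M] : Prop :=
  ∃ N : IntermediateField ℚ (AlgebraicClosure ℚ), N ≤ L ∧ FiniteDimensional ℚ N ∧ IsGalois ℚ N ∧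
    ∃ ι : N →+* M, Algebra.adjoin F (Set.range ι) = ⊤

/-- Part LAY. The layers satisfy the conditions of the theorem. -/
def S_LAY : Prop := ∀ (L : IntermediateField ℚ (AlgebraicClosure ℚ)) (T : Set ℕ), IsTw L T →
  ∀ (F M : Type) [Field F] [NumberField F] [Field M] [NumberField M] [Algebra F M],
  Layer L F M → Spl F M D10 T

/-! ### Parts of LAY -/

/-- Part SPC. Splitting and ramification in a compositum: `M = F N`, `N / ℚ` Galois. -/
def S_SPC : Prop := ∀ (N F M : Type) [Field N] [NumberField N] [Field F] [NumberField F] [Field M]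
  [NumberField M] [Algebra F M] [IsGalois ℚ N] (ι : N →+* M),
  Algebra.adjoin F (Set.range ι) = ⊤ →
  IsGalois F M ∧ (∀ m : ℕ, Module.finrank ℚ N = 2 ^ m → ∃ n : ℕ, Module.finrank F M = 2 ^ n) ∧
  ∀ q : ℕ, q.Prime → ∀ (v : HeightOneSpectrum (𝓞 F)) (w : HeightOneSpectrum (𝓞 M)),
    (q : 𝓞 F) ∈ v.asIdeal → Ov v.asIdeal w →
    (UnrQ N q → Unr v w) ∧ (SplQ N q → Unr v w ∧ Dns F w)

/-- Part EMB. Complete splitting gives an embedding in the completion. -/
def S_EMB : Prop := ∀ (F M : Type) [Field F] [NumberField F] [Field M] [NumberField M]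
  [Algebra F M] (v : HeightOneSpectrum (𝓞 F)) (w : HeightOneSpectrum (𝓞 M)), Unr v w → Dns F w →
  Nonempty (M →ₐ[F] v.adicCompletion F)

/-! ### Parts of TWR -/

/-- Part TW0. The tower over the real quadratic field `k` (proof of `Y802.TS.exists_tower` with more
properties: every finite subextension of `L` is contained in a good field `E ≤ L`, and the primes
`T i` are congruent to `1` modulo `8`). -/
structure IsTw0 (k L : IntermediateField ℚ (AlgebraicClosure ℚ)) (T : ℕ → ℕ) : Prop where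
  rank : Module.finrank ℚ k = 2
  sqrt : ∃ s ∈ k, s ^ 2 = ((17 * 41 * 73 * 89 * 97 * 113 * 137 * 193 * 233 * 241 : ℕ) :
    AlgebraicClosure ℚ)
  le : k ≤ L
  inf : ¬ FiniteDimensional ℚ L
  cover : ∀ N : IntermediateField ℚ (AlgebraicClosure ℚ), N ≤ L → FiniteDimensional ℚ N →
    ∃ E : IntermediateField ℚ (AlgebraicClosure ℚ), N ≤ E ∧ k ≤ E ∧ E ≤ L ∧
      ∃ _ : NumberField E, IsTotallyReal E ∧ Pool.Agent.TeamU.TwoSplit E ∧
        (∃ m : ℕ, Module.finrank ℚ E = 2 ^ m) ∧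
        (∀ σ : GQ, (∀ x ∈ k, σ x = x) → ∀ y ∈ E, σ y ∈ E) ∧
        ∀ q : ℕ, q.Prime → q ∉ D10 → UnrQ E q
  prime : ∀ i, (T i).Prime
  mono : ∀ i, T i < T (i + 1)
  mod8 : ∀ i, T i % 8 = 1
  split : ∀ i, ∀ P : Ideal ZBar, P.IsMaximal → (T i : ZBar) ∈ P → ∀ σ : GQ,
    IsGeomFrob (T i) P σ → ∀ y ∈ L, σ y = y

def S_TW0 : Prop := ∃ (k L : IntermediateField ℚ (AlgebraicClosure ℚ)) (T : ℕ → ℕ), IsTw0 k L T

/-- Part CMP. Ramification and splitting in a compositum of two conjugate Galois extensions of `k`: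
`N` is generated by the images of `E₁` and `E₂`. -/
def S_CMP : Prop := ∀ (k E₁ E₂ N : Type) [Field k] [NumberField k] [Field E₁] [NumberField E₁]
  [Field E₂] [NumberField E₂] [Field N] [NumberField N] [Algebra k E₁] [Algebra k E₂] [Algebra k N]
  (ι₁ : E₁ →ₐ[k] N) (ι₂ : E₂ →ₐ[k] N), IsGalois k E₁ → IsGalois k E₂ →
  Algebra.adjoin k (Set.range ι₁ ∪ Set.range ι₂) = ⊤ → ∀ q : ℕ, q.Prime →
  (UnrQ E₁ q → UnrQ E₂ q → UnrQ N q) ∧ (SplQ E₁ q → SplQ E₂ q → SplQ N q)

end Pool.Agent.L0h50.UT
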