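import Mathlib

/-!
# Torsion points of odd order over a field with a valuation over 2

Project UT (helper50). Let `K` be a field with a valuation `w`, `w 2 < 1`, and let `E : y² = x³ + A x + B`
with `w A ≤ 1`, `w B ≤ 1`. The points of odd order of `E` have integral coordinates, since doubling
moves the points with non-integral coordinates closer to zero; and two points of odd order which are
congruent modulo `2 (4 A³ + 27 B²)` are equal.
-/

set_option autoImplicit false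
set_option linter.all false

open scoped Classical

namespace Pool.Agent.L0h50.UT.Tor

open WeierstrassCurve.Affine

section

variable {K : Type} [Field K] {Γ : Type} [LinearOrderedCommGroupWithZero Γ] (w : Valuation K Γ)
  {A B : K}

/-- the curve `y² = x³ + A x + B` -/
abbrev EW {K : Type} [Field K] (A B : K) : WeierstrassCurve.Affine K := ⟨0, 0, 0, A, B⟩

theorem eqn {x y : K} (h : (EW A B).Nonsingular x y) : y ^ 2 = x ^ 3 + A * x + B := by
  have h1 := h.1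
  rw [WeierstrassCurve.Affine.equation_iff] at h1
  simp only [EW] at h1
  linear_combination h1

theorem x_add {x₁ y₁ x₂ y₂ : K} (h₁ : (EW A B).Nonsingular x₁ y₁)
    (h₂ : (EW A B).Nonsingular x₂ y₂) (hx : x₁ ≠ x₂) :
    ∃ (x₃ y₃ : K) (h₃ : (EW A B).Nonsingular x₃ y₃),
      Point.some x₁ y₁ h₁ + Point.some x₂ y₂ h₂ = Point.some x₃ y₃ h₃ ∧
        x₃ = ((y₁ - y₂) / (x₁ - x₂)) ^ 2 - x₁ - x₂ := by
  refine ⟨_, _, _, Point.add_of_X_ne hx, ?_⟩
  rw [slope_of_X_ne hx]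
  simp only [addX, EW]
  ring

theorem x_double {x y : K} (h : (EW A B).Nonsingular x y) (hy : 2 * y ≠ 0) :
    ∃ (x₃ y₃ : K) (h₃ : (EW A B).Nonsingular x₃ y₃),
      Point.some x y h + Point.some x y h = Point.some x₃ y₃ h₃ ∧
        x₃ = ((3 * x ^ 2 + A) / (2 * y)) ^ 2 - 2 * x := by
  have hy' : y ≠ (EW A B).negY x y := by
    simp only [negY, EW]
    intro h1
    apply hy
    linear_combination h1
  refine ⟨_, _, _, Point.add_self_of_Y_ne hy', ?_⟩
  rw [slope_of_Y_ne rfl hy']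
  simp only [addX, negY, EW]
  have h3 : y - (-y - 0 * x - 0) = 2 * y := by ring
  rw [h3]
  ring

theorem w_three (h2 : w 2 < 1) : w 3 ≤ 1 := by
  have h : (3 : K) = 1 + 2 := by norm_num
  rw [h]
  exact (w.map_add _ _).trans (max_le (by rw [map_one]) h2.le)

theorem w_eight (h2 : w 2 < 1) : w 8 ≤ 1 := by
  have h : (8 : K) = 2 ^ 3 := by norm_num
  rw [h, map_pow]
  exact pow_le_one₀ zero_le' h2.le

/-- doubling moves the points with non-integral coordinates closer to zero -/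
theorem double_lt (hA : w A ≤ 1) (hB : w B ≤ 1) (h2 : w 2 < 1) (h20 : (2 : K) ≠ 0) {x y : K}
    (h : (EW A B).Nonsingular x y) (hx : 1 < w x) :
    ∃ (x₃ y₃ : K) (h₃ : (EW A B).Nonsingular x₃ y₃),
      Point.some x y h + Point.some x y h = Point.some x₃ y₃ h₃ ∧ w x < w x₃ := by
  have e := eqn h
  have hx3 : w x ^ 1 < w x ^ 3 := pow_lt_pow_right₀ hx (by norm_num)
  have hx4 : w x ^ 2 < w x ^ 4 := pow_lt_pow_right₀ hx (by norm_num)
  have hx03 : 1 < w x ^ 3 := one_lt_pow₀ hx (by norm_num)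
  have hx12 : w x ≤ w x ^ 2 := by
    rw [← pow_one (w x), ← pow_mul]
    exact pow_le_pow_right₀ hx.le (by norm_num)
  have hx02 : 1 ≤ w x ^ 2 := one_le_pow₀ hx.le
  have hy2 : w (y ^ 2) = w x ^ 3 := by
    have h3 : w (A * x + B) < w (x ^ 3) := by
      rw [map_pow]
      refine lt_of_le_of_lt (w.map_add _ _) (max_lt ?_ ?_)
      · rw [map_mul]
        refine lt_of_le_of_lt (mul_le_of_le_one_left' hA) ?_
        rwa [pow_one] at hx3
      · exact lt_of_le_of_lt hB hx03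
    rw [e, add_assoc, w.map_add_eq_of_lt_left h3, map_pow]
  have hy0 : y ≠ 0 := by
    rintro rfl
    rw [zero_pow (by norm_num), map_zero] at hy2
    exact absurd hy2 (by
      have : (0 : Γ) < w x ^ 3 := lt_trans zero_lt_one hx03
      exact this.ne)
  obtain ⟨x₃, y₃, h₃, h4, h5⟩ := x_double h (mul_ne_zero h20 hy0)
  refine ⟨x₃, y₃, h₃, h4, ?_⟩
  have h6 : x₃ * 2 ^ 2 * y ^ 2 = x ^ 4 + (-(2 * A * x ^ 2) + (-(8 * B * x) + A ^ 2)) := by
    have h7 : x₃ * 2 ^ 2 * y ^ 2 = (3 * x ^ 2 + A) ^ 2 - 8 * x * y ^ 2 := by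
      rw [h5]
      field_simp
      ring
    rw [h7, e]
    ring
  have h8 : w (-(2 * A * x ^ 2) + (-(8 * B * x) + A ^ 2)) < w (x ^ 4) := by
    rw [map_pow]
    refine lt_of_le_of_lt (w.map_add_le ?_ (w.map_add_le ?_ ?_)) hx4
    · rw [w.map_neg, map_mul, map_mul, map_pow]
      exact mul_le_of_le_one_left' (mul_le_one' h2.le hA)
    · rw [w.map_neg, map_mul, map_mul]
      exact (mul_le_of_le_one_left' (mul_le_one' (w_eight w h2) hB)).trans hx12
    · rw [map_pow]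
      exact (pow_le_one₀ zero_le' hA).trans hx02
  have h9 : w x₃ * w 2 ^ 2 * w x ^ 3 = w x ^ 4 := by
    rw [← hy2, ← map_pow, ← map_mul, ← map_mul, h6, w.map_add_eq_of_lt_left h8, map_pow]
  have hx0 : w x ≠ 0 := (lt_trans zero_lt_one hx).ne'
  have h10 : w x₃ * w 2 ^ 2 = w x := by
    have h11 : w x₃ * w 2 ^ 2 * w x ^ 3 = w x * w x ^ 3 := by
      rw [h9]
      exact pow_succ' (w x) 3
    exact mul_right_cancel₀ (pow_ne_zero 3 hx0) h11
  have hx30 : w x₃ ≠ 0 := by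
    intro h0
    rw [h0, zero_mul] at h10
    exact hx0 h10.symm
  have h22 : w 2 ^ 2 < 1 := pow_lt_one₀ zero_le' h2 (by norm_num)
  calc w x = w x₃ * w 2 ^ 2 := h10.symm
    _ < w x₃ * 1 := by
        exact mul_lt_mul_of_pos_left h22 (zero_lt_iff.2 hx30)
    _ = w x₃ := mul_one _

/-- the points of odd order have integral coordinates -/
theorem int_of_odd (hA : w A ≤ 1) (hB : w B ≤ 1) (h2 : w 2 < 1) (h20 : (2 : K) ≠ 0) {x y : K}
    (h : (EW A B).Nonsingular x y) {n : ℕ} (hn : Odd n)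
    (hP : n • (Point.some x y h : (EW A B).Point) = 0) : w x ≤ 1 ∧ w y ≤ 1 := by
  have hx : w x ≤ 1 := by
    by_contra hx
    push Not at hx
    have key : ∀ k : ℕ, 1 ≤ k → ∃ (x₃ y₃ : K) (h₃ : (EW A B).Nonsingular x₃ y₃),
        2 ^ k • (Point.some x y h : (EW A B).Point) = Point.some x₃ y₃ h₃ ∧ w x < w x₃ := by
      intro k hk
      induction k, hk using Nat.le_induction with
      | base =>
        rw [pow_one, two_nsmul]
        exact double_lt w hA hB h2 h20 h hx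
      | succ k hk ih =>
        obtain ⟨x₃, y₃, h₃, h4, h5⟩ := ih
        obtain ⟨x₄, y₄, h₄, h6, h7⟩ := double_lt w hA hB h2 h20 h₃ (hx.trans h5)
        refine ⟨x₄, y₄, h₄, ?_, h5.trans h7⟩
        rw [pow_succ, mul_comm, mul_nsmul', h4, two_nsmul, h6]
    have hcop : Nat.Coprime 2 n := (Nat.coprime_two_left).2 hn
    have hn0 : 0 < n := hn.pos
    obtain ⟨x₃, y₃, h₃, h4, h5⟩ := key n.totient (Nat.totient_pos.2 hn0)
    have h6 := Nat.ModEq.pow_totient hcop
    have h7 : 2 ^ n.totient • (Point.some x y h : (EW A B).Point) = Point.some x y h := by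
      have h8 : 1 ≤ 2 ^ n.totient := Nat.one_le_two_pow
      obtain ⟨t, ht⟩ := (Nat.modEq_iff_dvd' h8).1 h6.symm
      have h9 : 2 ^ n.totient = n * t + 1 := by omega
      rw [h9, add_nsmul, mul_comm, mul_nsmul', hP, nsmul_zero, zero_add, one_nsmul]
    rw [h7] at h4
    simp only [Point.some.injEq] at h4
    rw [h4.1] at h5
    exact lt_irrefl _ h5
  refine ⟨hx, ?_⟩
  have e := eqn h
  have h3 : w (y ^ 2) ≤ 1 := by
    rw [e]
    refine w.map_add_le (w.map_add_le ?_ ?_) hB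
    · rw [map_pow]
      exact pow_le_one₀ zero_le' hx
    · rw [map_mul]
      exact mul_le_one' hA hx
  rw [map_pow] at h3
  exact (pow_le_one_iff (by norm_num : (2 : ℕ) ≠ 0)).1 h3

/-- a lower bound for the valuation of `y` -/
theorem y_ge (hA : w A ≤ 1) (hB : w B ≤ 1) (h2 : w 2 < 1) (h20 : (2 : K) ≠ 0) {x y : K}
    (h : (EW A B).Nonsingular x y) {n : ℕ} (hn : Odd n)
    (hP : n • (Point.some x y h : (EW A B).Point) = 0) (hδ : 4 * A ^ 3 + 27 * B ^ 2 ≠ 0) :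
    w (4 * A ^ 3 + 27 * B ^ 2) ≤ w y := by
  obtain ⟨hx, hy⟩ := int_of_odd w hA hB h2 h20 h hn hP
  have e := eqn h
  have h3 := w_three w h2
  have hy0 : y ≠ 0 := by
    rintro rfl
    have h4 : (Point.some x 0 h : (EW A B).Point) + Point.some x 0 h = 0 := by
      apply Point.add_self_of_Y_eq
      simp [negY, EW]
    obtain ⟨m, hm⟩ := hn
    rw [hm, add_nsmul, mul_comm, mul_nsmul', two_nsmul, h4, nsmul_zero, zero_add, one_nsmul] at hP
    exact Point.some_ne_zero h hP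
  have h2y : 2 * y ≠ 0 := mul_ne_zero h20 hy0
  obtain ⟨x₃, y₃, h₃, h4, h5⟩ := x_double h h2y
  have hx₃ : w x₃ ≤ 1 := by
    refine (int_of_odd w hA hB h2 h20 h₃ hn ?_).1
    rw [← h4, nsmul_add, hP, add_zero]
  have h6 : w ((3 * x ^ 2 + A) / (2 * y)) ≤ 1 := by
    have h7 : w (((3 * x ^ 2 + A) / (2 * y)) ^ 2) ≤ 1 := by
      have h8 : ((3 * x ^ 2 + A) / (2 * y)) ^ 2 = x₃ + 2 * x := by rw [h5]; ring
      rw [h8]
      refine w.map_add_le hx₃ ?_
      rw [map_mul]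
      exact mul_le_one' h2.le hx
    rw [map_pow] at h7
    exact (pow_le_one_iff (by norm_num : (2 : ℕ) ≠ 0)).1 h7
  have h7 : w (3 * x ^ 2 + A) ≤ w y := by
    have h8 : 3 * x ^ 2 + A = ((3 * x ^ 2 + A) / (2 * y)) * (2 * y) := by
      rw [div_mul_cancel₀ _ h2y]
    rw [h8, map_mul, map_mul]
    exact (mul_le_of_le_one_left' h6).trans (mul_le_of_le_one_left' h2.le)
  have h8 : w (y ^ 2) ≤ w y := by
    rw [map_pow, pow_two]
    exact mul_le_of_le_one_left' hy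
  have h9 : 4 * A ^ 3 + 27 * B ^ 2 =
      (2 * 3 * A * x ^ 2 - 3 * 3 * B * x + 2 * 2 * A ^ 2) * (3 * x ^ 2 + A) -
        (2 * 3 * 3 * A * x - 3 * 3 * 3 * B) * y ^ 2 := by
    rw [e]
    ring
  have i2 := h2.le
  have hx2 : w (x ^ 2) ≤ 1 := by
    rw [map_pow]
    exact pow_le_one₀ zero_le' hx
  have hA2 : w (A ^ 2) ≤ 1 := by
    rw [map_pow]
    exact pow_le_one₀ zero_le' hA
  rw [h9]
  refine w.map_sub_le ?_ ?_
  · rw [map_mul]
    refine (mul_le_of_le_one_left' ?_).trans h7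
    refine w.map_add_le (w.map_sub_le ?_ ?_) ?_
    · simp only [map_mul]
      exact mul_le_one' (mul_le_one' (mul_le_one' i2 h3) hA) hx2
    · simp only [map_mul]
      exact mul_le_one' (mul_le_one' (mul_le_one' h3 h3) hB) hx
    · simp only [map_mul]
      exact mul_le_one' (mul_le_one' i2 i2) hA2
  · rw [map_mul]
    refine (mul_le_of_le_one_left' ?_).trans h8
    refine w.map_sub_le ?_ ?_
    · simp only [map_mul]
      exact mul_le_one' (mul_le_one' (mul_le_one' (mul_le_one' i2 h3) h3) hA) hx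
    · simp only [map_mul]
      exact mul_le_one' (mul_le_one' (mul_le_one' h3 h3) h3) hB

/-- two points of odd order which are congruent are equal -/
theorem eq_of_close (hA : w A ≤ 1) (hB : w B ≤ 1) (h2 : w 2 < 1) (h20 : (2 : K) ≠ 0)
    (hδ : 4 * A ^ 3 + 27 * B ^ 2 ≠ 0) {x₁ y₁ x₂ y₂ : K} (h₁ : (EW A B).Nonsingular x₁ y₁)
    (h₂ : (EW A B).Nonsingular x₂ y₂) {n₁ n₂ : ℕ} (hn₁ : Odd n₁) (hn₂ : Odd n₂)
    (hP₁ : n₁ • (Point.some x₁ y₁ h₁ : (EW A B).Point) = 0)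
    (hP₂ : n₂ • (Point.some x₂ y₂ h₂ : (EW A B).Point) = 0)
    (hx : w (x₁ - x₂) < w (2 * (4 * A ^ 3 + 27 * B ^ 2)))
    (hy : w (y₁ - y₂) < w (2 * (4 * A ^ 3 + 27 * B ^ 2))) : x₁ = x₂ ∧ y₁ = y₂ := by
  have h3 := y_ge w hA hB h2 h20 h₁ hn₁ hP₁ hδ
  have h4 : w (2 * (4 * A ^ 3 + 27 * B ^ 2)) ≤ w (2 * y₁) := by
    rw [map_mul, map_mul]
    exact mul_le_mul_right h3 _
  have h5 : w (y₁ + y₂) = w (2 * y₁) := by
    have h6 : y₁ + y₂ = 2 * y₁ + -(y₁ - y₂) := by ring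
    rw [h6]
    apply w.map_add_eq_of_lt_left
    rw [w.map_neg]
    exact hy.trans_le h4
  have e₁ := eqn h₁
  have e₂ := eqn h₂
  have hxx : x₁ = x₂ := by
    by_contra hne
    have h₂' : (EW A B).Nonsingular x₂ (-y₂) := by
      have := (nonsingular_neg (W' := EW A B) x₂ y₂).2 h₂
      simpa [negY, EW] using this
    obtain ⟨x₃, y₃, h₃, h6, h7⟩ := x_add h₁ h₂' hne
    have h8 : (Point.some x₂ (-y₂) h₂' : (EW A B).Point) = -Point.some x₂ y₂ h₂ := by
      rw [Point.neg_some]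
      simp [negY, EW]
    have h9 : (n₁ * n₂) • (Point.some x₃ y₃ h₃ : (EW A B).Point) = 0 := by
      rw [← h6, h8, nsmul_add, mul_comm, mul_nsmul', hP₁, nsmul_zero, zero_add, smul_neg,
        mul_comm, mul_nsmul', hP₂, nsmul_zero, neg_zero]
    have h10 := (int_of_odd w hA hB h2 h20 h₃ (hn₁.mul hn₂) h9).1
    have i1 := (int_of_odd w hA hB h2 h20 h₁ hn₁ hP₁).1
    have i2 := (int_of_odd w hA hB h2 h20 h₂ hn₂ hP₂).1
    have h11 : w (((y₁ - -y₂) / (x₁ - x₂)) ^ 2) ≤ 1 := by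
      have h12 : ((y₁ - -y₂) / (x₁ - x₂)) ^ 2 = x₃ + x₁ + x₂ := by rw [h7]; ring
      rw [h12]
      exact w.map_add_le (w.map_add_le h10 i1) i2
    rw [map_pow] at h11
    have h12 := (pow_le_one_iff (by norm_num : (2 : ℕ) ≠ 0)).1 h11
    have h13 : y₁ - -y₂ = ((y₁ - -y₂) / (x₁ - x₂)) * (x₁ - x₂) := by
      rw [div_mul_cancel₀ _ (sub_ne_zero.2 hne)]
    have h14 : w (y₁ - -y₂) ≤ w (x₁ - x₂) := by
      rw [h13, map_mul]
      exact mul_le_of_le_one_left' h12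
    rw [sub_neg_eq_add, h5] at h14
    exact absurd (h4.trans h14) (not_le.2 hx)
  refine ⟨hxx, ?_⟩
  subst hxx
  have h6 : (y₁ - y₂) * (y₁ + y₂) = 0 := by
    have : y₁ ^ 2 = y₂ ^ 2 := by rw [e₁, e₂]
    linear_combination this
  rcases mul_eq_zero.1 h6 with h7 | h7
  · exact sub_eq_zero.1 h7
  · exfalso
    have h8 : w (2 * y₁) = 0 := by rw [← h5, h7, map_zero]
    have h9 : w (2 * (4 * A ^ 3 + 27 * B ^ 2)) ≠ 0 :=
      (w.ne_zero_iff).2 (mul_ne_zero h20 hδ)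
    rw [h8] at h4
    exact h9 (le_antisymm h4 zero_le')

/-- finiteness: `r` is a map to a finite type such that elements with the same image are close -/
theorem finite_odd (hA : w A ≤ 1) (hB : w B ≤ 1) (h2 : w 2 < 1) (h20 : (2 : K) ≠ 0)
    (hδ : 4 * A ^ 3 + 27 * B ^ 2 ≠ 0) {R : Type} [Finite R] (r : K → R)
    (hr : ∀ a b : K, w a ≤ 1 → w b ≤ 1 → r a = r b →
      w (a - b) < w (2 * (4 * A ^ 3 + 27 * B ^ 2))) :
    {P : (EW A B).Point | ∃ n : ℕ, Odd n ∧ n • P = 0}.Finite := by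
  let c : (EW A B).Point → Option (R × R) := fun P => match P with
    | .zero => none
    | .some x y _ => some (r x, r y)
  refine Set.Finite.of_injOn (f := c) (t := Set.univ) (fun _ _ => Set.mem_univ _) ?_
    Set.finite_univ
  rintro P ⟨n, hn, hP⟩ Q ⟨m, hm, hQ⟩ hPQ
  rcases P with _ | ⟨x₁, y₁, h₁⟩
  · rcases Q with _ | ⟨x₂, y₂, h₂⟩
    · rfl
    · simp [c] at hPQ
  · rcases Q with _ | ⟨x₂, y₂, h₂⟩
    · simp [c] at hPQ
    · simp only [c, Option.some.injEq, Prod.mk.injEq] at hPQ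
      obtain ⟨i1, i2⟩ := int_of_odd w hA hB h2 h20 h₁ hn hP
      obtain ⟨i3, i4⟩ := int_of_odd w hA hB h2 h20 h₂ hm hQ
      obtain ⟨h3, h4⟩ := eq_of_close w hA hB h2 h20 hδ h₁ h₂ hn hm hP hQ
        (hr _ _ i1 i3 hPQ.1) (hr _ _ i2 i4 hPQ.2)
      subst h3
      subst h4
      rfl

end

end Pool.Agent.L0h50.UT.Tor
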