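import Pool.Agent.L0h50.UT.Tor
import Pool.Agent.N352.PP.Loc

/-!
# The points of odd order of an elliptic curve over the completion of a number field at a prime over 2

Project UT (helper50).
-/

set_option autoImplicit false
set_option linter.all false

open IsDedekindDomain NumberField
open scoped Classical

namespace Pool.Agent.L0h50.UT.Tor

open Pool.Agent.N352.PP (vv vv_coe dense_F)

variable {F : Type} [Field F] [NumberField F]

theorem approx (v : HeightOneSpectrum (𝓞 F)) (g : F) (hg : g ≠ 0) (hg1 : v.valuation F g ≤ 1)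
    (x : v.adicCompletion F) (hx : vv v x ≤ 1) :
    ∃ a : 𝓞 F, vv v (x - algebraMap F (v.adicCompletion F) (a : F)) < v.valuation F g := by
  obtain ⟨f, hf⟩ := dense_F v x hg
  have h1 : v.valuation F f ≤ 1 := by
    rw [← vv_coe]
    have e : algebraMap F (v.adicCompletion F) f =
        x - (x - algebraMap F (v.adicCompletion F) f) := by ring
    rw [e]
    exact (Valuation.map_sub _ _ _).trans (max_le hx (hf.le.trans hg1))
  have hg0 : v.valuation F g ≠ 0 := (Valuation.ne_zero_iff _).2 hg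
  obtain ⟨a, ha⟩ := v.exists_valuation_sub_lt_of_integer (K := F) h1 (Units.mk0 _ hg0)
  refine ⟨a, ?_⟩
  have e : x - algebraMap F (v.adicCompletion F) (a : F) =
      (x - algebraMap F (v.adicCompletion F) f) -
        algebraMap F (v.adicCompletion F) ((a : F) - f) := by
    rw [map_sub]; ring
  rw [e]
  refine lt_of_le_of_lt (Valuation.map_sub _ _ _) (max_lt hf ?_)
  rw [vv_coe]
  exact ha

theorem odd_finite (v : HeightOneSpectrum (𝓞 F)) (hv : (2 : 𝓞 F) ∈ v.asIdeal) (A B : 𝓞 F)
    (hδ : 4 * (A : F) ^ 3 + 27 * (B : F) ^ 2 ≠ 0) :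
    {P : (EW (algebraMap F (v.adicCompletion F) (A : F))
      (algebraMap F (v.adicCompletion F) (B : F))).Point | ∃ n : ℕ, Odd n ∧ n • P = 0}.Finite := by
  set g : F := 2 * (4 * (A : F) ^ 3 + 27 * (B : F) ^ 2) with hg
  have hg0 : g ≠ 0 := mul_ne_zero two_ne_zero hδ
  have hgi : ∃ a : 𝓞 F, (a : F) = g := ⟨2 * (4 * A ^ 3 + 27 * B ^ 2), by
    rw [hg]
    have e2 : algebraMap (𝓞 F) F 2 = 2 := map_ofNat _ 2
    have e4 : algebraMap (𝓞 F) F 4 = 4 := map_ofNat _ 4
    have e27 : algebraMap (𝓞 F) F 27 = 27 := map_ofNat _ 27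
    change algebraMap (𝓞 F) F _ = _
    rw [map_mul, map_add, map_mul, map_mul, map_pow, map_pow, e2, e4, e27]⟩
  have hg1 : v.valuation F g ≤ 1 := by
    obtain ⟨a, ha⟩ := hgi
    rw [← ha]
    exact v.valuation_le_one a
  have hg2 : v.valuation F g ≠ 0 := (Valuation.ne_zero_iff _).2 hg0
  obtain ⟨N, hN, -⟩ := WithZero.exists_exp_neg_natCast_lt_and_lt hg2 hg2
  haveI : Finite (𝓞 F ⧸ v.asIdeal ^ N) :=
    Ideal.finiteQuotientOfFreeOfNeBot _ (pow_ne_zero N v.ne_bot)
  have hap := approx v g hg0 hg1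
  choose a ha using hap
  have h2 : vv v (2 : v.adicCompletion F) < 1 := by
    have h3 := vv_coe v (2 : F)
    rw [map_ofNat] at h3
    rw [h3]
    have h4 : v.valuation F (algebraMap (𝓞 F) F 2) < 1 :=
      (HeightOneSpectrum.valuation_lt_one_iff_mem _ _).2 hv
    rwa [map_ofNat] at h4
  have h20 : (2 : v.adicCompletion F) ≠ 0 := by
    have h3 : algebraMap F (v.adicCompletion F) 2 ≠ 0 := (_root_.map_ne_zero _).2 two_ne_zero
    rwa [map_ofNat] at h3
  have hgE : 2 * (4 * (algebraMap F (v.adicCompletion F) (A : F)) ^ 3 +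
      27 * (algebraMap F (v.adicCompletion F) (B : F)) ^ 2) =
      algebraMap F (v.adicCompletion F) g := by
    rw [hg]
    simp only [map_mul, map_add, map_pow, map_ofNat]
  refine finite_odd (vv v) ?_ ?_ h2 h20 ?_ (R := 𝓞 F ⧸ v.asIdeal ^ N)
    (fun x => if hx : vv v x ≤ 1 then Ideal.Quotient.mk _ (a x hx) else 0) ?_
  · rw [vv_coe]
    exact v.valuation_le_one A
  · rw [vv_coe]
    exact v.valuation_le_one B
  · intro h0
    rw [h0, mul_zero] at hgE
    exact hg0 ((map_eq_zero _).1 hgE.symm)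
  · intro x y hx hy hxy
    rw [dif_pos hx, dif_pos hy, Ideal.Quotient.eq] at hxy
    rw [hgE, vv_coe]
    have h3 : v.valuation F ((a x hx - a y hy : 𝓞 F) : F) < v.valuation F g := by
      refine lt_of_le_of_lt ?_ hN
      have h4 := (HeightOneSpectrum.intValuation_le_pow_iff_mem v (a x hx - a y hy) N).2 hxy
      rw [← HeightOneSpectrum.valuation_of_algebraMap (K := F)] at h4
      exact h4
    have e : x - y = (x - algebraMap F (v.adicCompletion F) ((a x hx : 𝓞 F) : F)) -
        (y - algebraMap F (v.adicCompletion F) ((a y hy : 𝓞 F) : F)) +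
          algebraMap F (v.adicCompletion F) ((a x hx - a y hy : 𝓞 F) : F) := by
      have e0 : ((a x hx - a y hy : 𝓞 F) : F) = ((a x hx : 𝓞 F) : F) - ((a y hy : 𝓞 F) : F) :=
        map_sub (algebraMap (𝓞 F) F) _ _
      rw [e0, map_sub]
      ring
    rw [e]
    refine Valuation.map_add_lt _ (lt_of_le_of_lt (Valuation.map_sub _ _ _)
      (max_lt (ha x hx) (ha y hy))) ?_
    rw [vv_coe]
    exact h3

end Pool.Agent.L0h50.UT.Tor
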