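import Pool.Agent.L0h50.UT.StmT

/-!
# Ramification and splitting in subfields and isomorphic fields

Project UT (helper50).
-/

set_option autoImplicit false
set_option linter.all false

open Polynomial IsDedekindDomain NumberField
open scoped Classical IntermediateField

namespace Pool.Agent.L0h50.UT

attribute [local instance 10] DivisionRing.toRatAlgebra

section sub

variable {N N' : Type} [Field N] [NumberField N] [Field N'] [NumberField N'] [Algebra N N']

theorem over_exists (P : Ideal (𝓞 N)) (hP : P.IsPrime) :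
    ∃ P' : Ideal (𝓞 N'), P'.IsPrime ∧ P'.comap (algebraMap (𝓞 N) (𝓞 N')) = P := by
  obtain ⟨Q, -, hQp, hQ⟩ := Ideal.exists_ideal_over_prime_of_isIntegral (S := 𝓞 N') P ⊥
    (by
      intro x hx
      have h1 : algebraMap (𝓞 N) (𝓞 N') x = 0 := by simpa using hx
      have hinj : Function.Injective (algebraMap (𝓞 N) (𝓞 N')) :=
        FaithfulSMul.algebraMap_injective _ _
      have h2 : x = 0 := hinj (by rw [h1, map_zero])
      rw [h2]
      exact zero_mem _)
  exact ⟨Q, hQp, hQ⟩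

theorem UnrQ.sub {q : ℕ} (h : UnrQ N' q) : UnrQ N q := by
  intro P hP hqP hq2
  obtain ⟨P', hP', hc⟩ := over_exists (N' := N') P hP
  have h1 : P.map (algebraMap (𝓞 N) (𝓞 N')) ≤ P' := by
    rw [Ideal.map_le_iff_le_comap, hc]
  have h2 : (q : 𝓞 N') ∈ P' := by
    have := h1 (Ideal.mem_map_of_mem _ hqP)
    rwa [map_natCast] at this
  refine h P' hP' h2 ?_
  have h3 : (q : 𝓞 N') ∈ (P ^ 2).map (algebraMap (𝓞 N) (𝓞 N')) := by
    have := Ideal.mem_map_of_mem (algebraMap (𝓞 N) (𝓞 N')) hq2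
    rwa [map_natCast] at this
  rw [Ideal.map_pow] at h3
  exact Ideal.pow_right_mono h1 2 h3

theorem card_ge {q : ℕ} (hq : q.Prime) (P : Ideal (𝓞 N)) (hP : P.IsPrime) (hqP : (q : 𝓞 N) ∈ P) :
    Finite (𝓞 N ⧸ P) ∧ q ≤ Nat.card (𝓞 N ⧸ P) := by
  have hP0 : P ≠ ⊥ := by
    rintro rfl
    rw [Ideal.mem_bot] at hqP
    exact hq.ne_zero (by exact_mod_cast hqP)
  have hmax : P.IsMaximal := hP.isMaximal hP0
  haveI hfin : Finite (𝓞 N ⧸ P) := Ideal.finiteQuotientOfFreeOfNeBot P hP0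
  refine ⟨hfin, ?_⟩
  letI : Field (𝓞 N ⧸ P) := Ideal.Quotient.field P
  have h0 : ((q : ℕ) : 𝓞 N ⧸ P) = 0 := by
    rw [← map_natCast (Ideal.Quotient.mk P), Ideal.Quotient.eq_zero_iff_mem]
    exact hqP
  haveI : CharP (𝓞 N ⧸ P) q := by
    obtain ⟨p, hp⟩ := CharP.exists (𝓞 N ⧸ P)
    have h1 : p ∣ q := (CharP.cast_eq_zero_iff (𝓞 N ⧸ P) p q).1 h0
    rcases (Nat.dvd_prime hq).1 h1 with rfl | rfl
    · exact absurd rfl (CharP.char_ne_one (𝓞 N ⧸ P) 1)
    · exact hp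
  haveI : Fact q.Prime := ⟨hq⟩
  have h1 := Nat.card_le_card_of_injective _ (ZMod.castHom (dvd_refl q) (𝓞 N ⧸ P)).injective
  rwa [Nat.card_zmod] at h1

theorem SplQ.sub {q : ℕ} (hq : q.Prime) (h : SplQ N' q) : SplQ N q := by
  refine ⟨h.1.sub, fun P hP hqP => ?_⟩
  obtain ⟨P', hP', hc⟩ := over_exists (N' := N') P hP
  have h2 : (q : 𝓞 N') ∈ P' := by
    have h1 : P.map (algebraMap (𝓞 N) (𝓞 N')) ≤ P' := by
      rw [Ideal.map_le_iff_le_comap, hc]
    have := h1 (Ideal.mem_map_of_mem _ hqP)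
    rwa [map_natCast] at this
  have h3 := h.2 P' hP' h2
  obtain ⟨h4, h5⟩ := card_ge hq P hP hqP
  obtain ⟨h6, -⟩ := card_ge hq P' hP' h2
  refine le_antisymm ?_ h5
  rw [← h3]
  let φ : 𝓞 N ⧸ P →+* 𝓞 N' ⧸ P' := Ideal.quotientMap P' (algebraMap (𝓞 N) (𝓞 N')) hc.ge
  exact Nat.card_le_card_of_injective φ (Ideal.quotientMap_injective' hc.le)

end sub

section equiv

variable {N N' : Type} [Field N] [NumberField N] [Field N'] [NumberField N']

theorem UnrQ.equiv {q : ℕ} (e : N →+* N') (h : UnrQ N' q) : UnrQ N q := by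
  letI : Algebra N N' := e.toAlgebra
  exact h.sub

theorem SplQ.equiv {q : ℕ} (hq : q.Prime) (e : N →+* N') (h : SplQ N' q) : SplQ N q := by
  letI : Algebra N N' := e.toAlgebra
  exact h.sub hq

end equiv

end Pool.Agent.L0h50.UT
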