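import Pool.Agent.L0h50.UT.Tr1

/-!
# Conjugates over the real quadratic field

Project UT (helper50).
-/

set_option autoImplicit false
set_option linter.all false

open Polynomial IsDedekindDomain NumberField IntermediateField
open scoped Classical

namespace Pool.Agent.L0h50.UT

attribute [local instance 10] DivisionRing.toRatAlgebra

open Pool.Agent.Y800 (GQ ZBar InInertia IsGeomFrob)

abbrev Om : Type := AlgebraicClosure ℚ

section gal

variable {s : Om}

theorem fix_or {d : ℕ} (hs : s ^ 2 = (d : Om)) (σ : GQ) : σ s = s ∨ σ s = -s := by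
  apply sq_eq_sq_iff_eq_or_eq_neg.1
  rw [← map_pow, hs, map_natCast]

theorem exists_neg {d : ℕ} (hs : s ^ 2 = (d : Om)) (hd : ∀ r : ℚ, r ^ 2 ≠ d) :
    ∃ a : GQ, a s = -s := by
  by_contra hcon
  push Not at hcon
  have h1 : ∀ σ : GQ, σ s = s := fun σ => (fix_or hs σ).resolve_right (hcon σ)
  have h2 : s ∈ (⊥ : IntermediateField ℚ Om) := by
    rw [InfiniteGalois.mem_bot_iff_fixed]
    exact h1
  obtain ⟨r, hr⟩ := IntermediateField.mem_bot.1 h2
  apply hd r
  have h3 : algebraMap ℚ Om (r ^ 2) = algebraMap ℚ Om (d : ℚ) := by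
    rw [map_pow, hr, hs, map_natCast]
  exact (algebraMap ℚ Om).injective h3

theorem adj_eq {d : ℕ} (hs : s ^ 2 = (d : Om)) (hd : ∀ r : ℚ, r ^ 2 ≠ d)
    {k : IntermediateField ℚ Om} (hk : Module.finrank ℚ k = 2) (hsk : s ∈ k) : ℚ⟮s⟯ = k := by
  have hfd : FiniteDimensional ℚ k := FiniteDimensional.of_finrank_pos (by omega)
  have hle : ℚ⟮s⟯ ≤ k := by
    rw [adjoin_simple_le_iff]
    exact hsk
  have hne : Module.finrank ℚ ℚ⟮s⟯ ≠ 1 := by
    intro h1
    rw [finrank_adjoin_simple_eq_one_iff, IntermediateField.mem_bot] at h1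
    obtain ⟨r, hr⟩ := h1
    apply hd r
    have h3 : algebraMap ℚ Om (r ^ 2) = algebraMap ℚ Om (d : ℚ) := by
      rw [map_pow, hr, hs, map_natCast]
    exact (algebraMap ℚ Om).injective h3
  have hdvd : Module.finrank ℚ ℚ⟮s⟯ ∣ 2 := by
    rw [← hk]
    exact finrank_dvd_of_le_right hle
  have h2 : Module.finrank ℚ ℚ⟮s⟯ = 2 := ((Nat.dvd_prime Nat.prime_two).1 hdvd).resolve_left hne
  exact eq_of_le_of_finrank_eq hle (by rw [h2, hk])

theorem fix_iff {d : ℕ} (hs : s ^ 2 = (d : Om)) (hd : ∀ r : ℚ, r ^ 2 ≠ d)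
    {k : IntermediateField ℚ Om} (hk : Module.finrank ℚ k = 2) (hsk : s ∈ k) (σ : GQ) :
    (∀ x ∈ k, σ x = x) ↔ σ s = s := by
  refine ⟨fun h => h s hsk, fun h => ?_⟩
  have hfd : FiniteDimensional ℚ k := FiniteDimensional.of_finrank_pos (by omega)
  have hle : ℚ⟮s⟯ ≤ k := by
    rw [adjoin_simple_le_iff]
    exact hsk
  have hne : Module.finrank ℚ ℚ⟮s⟯ ≠ 1 := by
    intro h1
    rw [finrank_adjoin_simple_eq_one_iff, IntermediateField.mem_bot] at h1
    obtain ⟨r, hr⟩ := h1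
    apply hd r
    have h3 : algebraMap ℚ Om (r ^ 2) = algebraMap ℚ Om (d : ℚ) := by
      rw [map_pow, hr, hs, map_natCast]
    exact (algebraMap ℚ Om).injective h3
  have hdvd : Module.finrank ℚ ℚ⟮s⟯ ∣ 2 := by
    rw [← hk]
    exact finrank_dvd_of_le_right hle
  have h2 : Module.finrank ℚ ℚ⟮s⟯ = 2 := ((Nat.dvd_prime Nat.prime_two).1 hdvd).resolve_left hne
  have heq : ℚ⟮s⟯ = k := eq_of_le_of_finrank_eq hle (by rw [h2, hk])
  intro x hx
  rw [← heq] at hx
  have h3 : ℚ⟮s⟯ ≤ IntermediateField.fixedField (Subgroup.zpowers σ) := by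
    rw [adjoin_simple_le_iff, IntermediateField.mem_fixedField_iff]
    rintro _ ⟨n, rfl⟩
    exact (MulAction.stabilizer GQ s).zpow_mem (show σ ∈ MulAction.stabilizer GQ s from h) n
  have h4 := h3 hx
  rw [IntermediateField.mem_fixedField_iff] at h4
  exact h4 σ (Subgroup.mem_zpowers σ)

/-- The image under `a`. -/
noncomputable def cj (a : GQ) (E : IntermediateField ℚ Om) : IntermediateField ℚ Om :=
  E.map (a : Om →ₐ[ℚ] Om)

theorem mem_cj {a : GQ} {E : IntermediateField ℚ Om} {y : Om} : y ∈ cj a E ↔ ∃ z ∈ E, a z = y := by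
  unfold cj
  rw [IntermediateField.mem_map]
  rfl

theorem cj_mono {a : GQ} {E E' : IntermediateField ℚ Om} (h : E ≤ E') : cj a E ≤ cj a E' :=
  IntermediateField.map_mono _ h

variable {a : GQ} {E : IntermediateField ℚ Om}

theorem st1 (hE : ∀ σ : GQ, σ s = s → ∀ y ∈ E, σ y ∈ E) (ha : a s = -s) {σ : GQ} (h : σ s = s) :
    ∀ y ∈ cj a E, σ y ∈ cj a E := by
  intro y hy
  obtain ⟨z, hz, rfl⟩ := mem_cj.1 hy
  refine mem_cj.2 ⟨(a⁻¹ * σ * a) z, hE _ ?_ z hz, ?_⟩
  · change a⁻¹ (σ (a s)) = s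
    rw [ha, map_neg, h, ← ha]
    exact a.symm_apply_apply s
  · change a (a⁻¹ (σ (a z))) = σ (a z)
    exact a.apply_symm_apply _

theorem st2 (hE : ∀ σ : GQ, σ s = s → ∀ y ∈ E, σ y ∈ E) (ha : a s = -s) {σ : GQ} (h : σ s = -s) :
    ∀ y ∈ E, σ y ∈ cj a E := by
  intro y hy
  refine mem_cj.2 ⟨(a⁻¹ * σ) y, hE _ ?_ y hy, ?_⟩
  · change a⁻¹ (σ s) = s
    rw [h, ← ha]
    exact a.symm_apply_apply s
  · change a (a⁻¹ (σ y)) = σ y
    exact a.apply_symm_apply _

theorem st3 (hE : ∀ σ : GQ, σ s = s → ∀ y ∈ E, σ y ∈ E) (ha : a s = -s) {σ : GQ} (h : σ s = -s) :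
    ∀ y ∈ cj a E, σ y ∈ E := by
  intro y hy
  obtain ⟨z, hz, rfl⟩ := mem_cj.1 hy
  refine hE (σ * a) ?_ z hz
  change σ (a s) = s
  rw [ha, map_neg, h, neg_neg]

/-- The compositum of `E` and its conjugate is stable. -/
theorem st_sup {d : ℕ} (hs : s ^ 2 = (d : Om)) (hE : ∀ σ : GQ, σ s = s → ∀ y ∈ E, σ y ∈ E)
    (ha : a s = -s) (σ : GQ) : ∀ y ∈ E ⊔ cj a E, σ y ∈ E ⊔ cj a E := by
  have key : cj σ (E ⊔ cj a E) ≤ E ⊔ cj a E := by
    unfold cj
    rw [IntermediateField.map_sup]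
    rcases fix_or hs σ with h | h
    · refine sup_le_sup ?_ ?_
      · intro y hy
        obtain ⟨z, hz, rfl⟩ := mem_cj.1 (show y ∈ cj σ E from hy)
        exact hE σ h z hz
      · intro y hy
        obtain ⟨z, hz, rfl⟩ := mem_cj.1 (show y ∈ cj σ (cj a E) from hy)
        exact st1 hE ha h z hz
    · refine sup_le ?_ ?_
      · intro y hy
        obtain ⟨z, hz, rfl⟩ := mem_cj.1 (show y ∈ cj σ E from hy)
        exact (le_sup_right : cj a E ≤ E ⊔ cj a E) (st2 hE ha h z hz)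
      · intro y hy
        obtain ⟨z, hz, rfl⟩ := mem_cj.1 (show y ∈ cj σ (cj a E) from hy)
        exact (le_sup_left : E ≤ E ⊔ cj a E) (st3 hE ha h z hz)
  intro y hy
  exact key (mem_cj.2 ⟨y, hy, rfl⟩)

/-- Real embeddings of the compositum. -/
theorem real_sup (hE : ∀ (φ : E →+* ℂ) (y : E), (φ y).im = 0) (Φ : Om →+* ℂ) :
    ∀ y ∈ E ⊔ cj a E, (Φ y).im = 0 := by
  let R : IntermediateField ℚ Om :=
    { carrier := {y | (Φ y).im = 0}
      mul_mem' := by
        intro x y hx hy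
        simp only [Set.mem_setOf_eq] at hx hy ⊢
        rw [map_mul, Complex.mul_im, hx, hy]
        ring
      one_mem' := by simp
      add_mem' := by
        intro x y hx hy
        simp only [Set.mem_setOf_eq] at hx hy ⊢
        rw [map_add, Complex.add_im, hx, hy, add_zero]
      zero_mem' := by simp
      algebraMap_mem' := by
        intro r
        simp only [Set.mem_setOf_eq]
        rw [eq_ratCast (algebraMap ℚ Om) r, map_ratCast]
        exact Complex.ratCast_im r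
      inv_mem' := by
        intro x hx
        simp only [Set.mem_setOf_eq] at hx ⊢
        rw [map_inv₀, Complex.inv_im, hx, neg_zero, zero_div] }
  have h1 : E ≤ R := fun y hy => hE (Φ.comp (algebraMap E Om)) ⟨y, hy⟩
  have h2 : cj a E ≤ R := by
    intro y hy
    obtain ⟨z, hz, rfl⟩ := mem_cj.1 hy
    exact hE ((Φ.comp (a : Om →+* Om)).comp (algebraMap E Om)) ⟨z, hz⟩
  exact fun y hy => (sup_le h1 h2) hy

/-- Elements of the Galois group of `N` are of 2-power order. -/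
theorem pow_aut {m : ℕ} (hm : Module.finrank ℚ E = 2 ^ m) {σ : GQ} (hσ : ∀ y ∈ E, σ y ∈ E) :
    ∀ y ∈ E, (σ ^ 2 ^ m) y = y := by
  have hfd : FiniteDimensional ℚ E := FiniteDimensional.of_finrank_pos (by rw [hm]; positivity)
  have hmap : E.map (σ : Om →ₐ[ℚ] Om) = E := by
    apply eq_of_le_of_finrank_eq
    · intro y hy
      obtain ⟨z, hz, rfl⟩ := mem_cj.1 (show y ∈ cj σ E from hy)
      exact hσ z hz
    · exact (IntermediateField.equivMap E (σ : Om →ₐ[ℚ] Om)).toLinearEquiv.finrank_eq.symm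
  -- the restriction to `E`
  let f : E →ₐ[ℚ] E :=
    { toFun := fun y => ⟨σ (y : Om), hσ y y.2⟩
      map_one' := Subtype.ext (show σ (1 : Om) = 1 from map_one σ)
      map_mul' := fun x y => Subtype.ext (show σ ((x : Om) * y) = σ (x : Om) * σ (y : Om) from map_mul σ _ _)
      map_zero' := Subtype.ext (show σ (0 : Om) = 0 from map_zero σ)
      map_add' := fun x y => Subtype.ext (show σ ((x : Om) + y) = σ (x : Om) + σ (y : Om) from map_add σ _ _)
      commutes' := fun r => Subtype.ext (σ.commutes r) }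
  let e : E ≃ₐ[ℚ] E := AlgEquiv.ofBijective f (Algebra.IsAlgebraic.algHom_bijective f)
  have he : ∀ y : ↥E, ((e y : E) : Om) = σ (y : Om) := fun y => rfl
  have h1 : Nat.card (⊤ : Subgroup (E ≃ₐ[ℚ] E)) ∣ 2 ^ m := by
    rw [← hm, ← IntermediateField.finrank_fixedField_eq_card]
    exact Dvd.intro_left _ (Module.finrank_mul_finrank ℚ _ E)
  have h2 : e ^ 2 ^ m = 1 := by
    have h3 : orderOf e ∣ 2 ^ m := by
      refine dvd_trans ?_ h1
      rw [Subgroup.card_top]
      exact orderOf_dvd_natCard e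
    exact orderOf_dvd_iff_pow_eq_one.1 h3
  have h3 : ∀ (n : ℕ) (y : E), (((e ^ n) y : E) : Om) = (σ ^ n) (y : Om) := by
    intro n
    induction n with
    | zero => intro y; rfl
    | succ n ih =>
      intro y
      rw [pow_succ, pow_succ]
      change (((e ^ n) (e y) : E) : Om) = (σ ^ n) (σ (y : Om))
      rw [ih, he]
  intro y hy
  have h4 := h3 (2 ^ m) ⟨y, hy⟩
  rw [h2] at h4
  exact h4.symm

end gal

end Pool.Agent.L0h50.UT
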