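import Pool.Agent.L0h50.UT.Tr2

/-!
# The compositum of a field and its conjugate

Project UT (helper50).
-/

set_option autoImplicit false
set_option linter.all false

open Polynomial IsDedekindDomain NumberField IntermediateField
open scoped Classical

namespace Pool.Agent.L0h50.UT

attribute [local instance 10] DivisionRing.toRatAlgebra

open Pool.Agent.Y800 (GQ ZBar InInertia IsGeomFrob)

theorem nf_of {E : IntermediateField ℚ Om} (h : FiniteDimensional ℚ E) : NumberField E := by
  constructor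

theorem galois_ext {k E : IntermediateField ℚ Om} (hkE : k ≤ E)
    (h : ∀ σ : GQ, (∀ x ∈ k, σ x = x) → ∀ y ∈ E, σ y ∈ E) : IsGalois k (extendScalars hkE) := by
  have hn : Normal k (extendScalars hkE) := by
    rw [IntermediateField.normal_iff_forall_map_le']
    intro σ y hy
    obtain ⟨z, hz, rfl⟩ := (IntermediateField.mem_map _).1 hy
    rw [mem_extendScalars] at hz ⊢
    exact h (σ.restrictScalars ℚ) (fun x hx => σ.commutes ⟨x, hx⟩) z hz
  have hs : Algebra.IsSeparable k (extendScalars hkE) := inferInstance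
  exact ⟨⟩

theorem cmp_sup (hC : S_CMP) {k E E' : IntermediateField ℚ Om} (hk : k ≤ E) (hk' : k ≤ E')
    [FiniteDimensional ℚ E] [FiniteDimensional ℚ E']
    (h : ∀ σ : GQ, (∀ x ∈ k, σ x = x) → ∀ y ∈ E, σ y ∈ E)
    (h' : ∀ σ : GQ, (∀ x ∈ k, σ x = x) → ∀ y ∈ E', σ y ∈ E') (i1 : NumberField E)
    (i2 : NumberField E') (i3 : NumberField (E ⊔ E' : IntermediateField ℚ Om)) {q : ℕ}
    (hq : q.Prime) :
    (UnrQ E q → UnrQ E' q → UnrQ (E ⊔ E' : IntermediateField ℚ Om) q) ∧
    (SplQ E q → SplQ E' q → SplQ (E ⊔ E' : IntermediateField ℚ Om) q) := by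
  have hkf : FiniteDimensional ℚ k :=
    FiniteDimensional.of_injective (IntermediateField.inclusion hk).toLinearMap
      (IntermediateField.inclusion hk).injective
  haveI : NumberField k := nf_of hkf
  let E₁ : IntermediateField k Om := extendScalars hk
  let E₂ : IntermediateField k Om := extendScalars hk'
  haveI f1 : FiniteDimensional k E₁ := by
    haveI : FiniteDimensional ℚ E₁ := inferInstanceAs (FiniteDimensional ℚ E)
    exact FiniteDimensional.right ℚ k E₁
  haveI f2 : FiniteDimensional k E₂ := by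
    haveI : FiniteDimensional ℚ E₂ := inferInstanceAs (FiniteDimensional ℚ E')
    exact FiniteDimensional.right ℚ k E₂
  haveI n1 : NumberField E₁ := Pool.Agent.H718R3.NT.nf_of_fin E₁
  haveI n2 : NumberField E₂ := Pool.Agent.H718R3.NT.nf_of_fin E₂
  haveI n3 : NumberField (E₁ ⊔ E₂ : IntermediateField k Om) :=
    Pool.Agent.H718R3.NT.nf_of_fin (E₁ ⊔ E₂)
  have g1 : IsGalois k E₁ := galois_ext hk h
  have g2 : IsGalois k E₂ := galois_ext hk' h'
  let ι₁ : E₁ →ₐ[k] (E₁ ⊔ E₂ : IntermediateField k Om) := IntermediateField.inclusion le_sup_left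
  let ι₂ : E₂ →ₐ[k] (E₁ ⊔ E₂ : IntermediateField k Om) := IntermediateField.inclusion le_sup_right
  have hadj : Algebra.adjoin k (Set.range ι₁ ∪ Set.range ι₂) = ⊤ := by
    have h1 : (Algebra.adjoin k (Set.range ι₁ ∪ Set.range ι₂)).map
        (E₁ ⊔ E₂ : IntermediateField k Om).val =
        (⊤ : Subalgebra k (E₁ ⊔ E₂ : IntermediateField k Om)).map
        (E₁ ⊔ E₂ : IntermediateField k Om).val := by
      rw [AlgHom.map_adjoin, Algebra.map_top]
      have e1 : (E₁ ⊔ E₂ : IntermediateField k Om).val.range =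
          (E₁ ⊔ E₂ : IntermediateField k Om).toSubalgebra := by
        ext x
        simp
      rw [e1, IntermediateField.sup_toSubalgebra_of_isAlgebraic_left]
      rw [Set.image_union, Algebra.adjoin_union]
      congr 1
      · apply le_antisymm
        · rw [Algebra.adjoin_le_iff]
          rintro _ ⟨_, ⟨y, rfl⟩, rfl⟩
          exact y.2
        · intro y hy
          exact Algebra.subset_adjoin ⟨ι₁ ⟨y, hy⟩, ⟨_, rfl⟩, rfl⟩
      · apply le_antisymm
        · rw [Algebra.adjoin_le_iff]
          rintro _ ⟨_, ⟨y, rfl⟩, rfl⟩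
          exact y.2
        · intro y hy
          exact Algebra.subset_adjoin ⟨ι₂ ⟨y, hy⟩, ⟨_, rfl⟩, rfl⟩
    exact Subalgebra.map_injective (E₁ ⊔ E₂ : IntermediateField k Om).val.injective h1
  have key := hC k E₁ E₂ (E₁ ⊔ E₂ : IntermediateField k Om) ι₁ ι₂ g1 g2 hadj q hq
  -- ring homomorphisms between the different versions of the fields
  let e1 : E₁ →+* E := RingHom.id E
  let e2 : E₂ →+* E' := RingHom.id E'
  have hle : ∀ y ∈ E ⊔ E', y ∈ (E₁ ⊔ E₂ : IntermediateField k Om) := by
    intro y hy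
    have h1 : E ⊔ E' ≤ (E₁ ⊔ E₂ : IntermediateField k Om).restrictScalars ℚ := by
      refine sup_le ?_ ?_
      · intro z hz
        exact (le_sup_left : E₁ ≤ E₁ ⊔ E₂) (show z ∈ E₁ from hz)
      · intro z hz
        exact (le_sup_right : E₂ ≤ E₁ ⊔ E₂) (show z ∈ E₂ from hz)
    exact h1 hy
  let e3 : (E ⊔ E' : IntermediateField ℚ Om) →+* (E₁ ⊔ E₂ : IntermediateField k Om) :=
    { toFun := fun y => ⟨y, hle y y.2⟩
      map_one' := rfl
      map_mul' := fun _ _ => rfl
      map_zero' := rfl
      map_add' := fun _ _ => rfl }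
  exact ⟨fun a b => (key.1 (a.equiv e1) (b.equiv e2)).equiv e3,
    fun a b => (key.2 (a.equiv hq e1) (b.equiv hq e2)).equiv hq e3⟩

end Pool.Agent.L0h50.UT
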