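import Pool.Agent.L0h50.UT.Tr3
import Pool.Agent.Y800.Frob2

/-!
# Residue fields at the primes with trivial Frobenius elements

Project UT (helper50).
-/

set_option autoImplicit false
set_option linter.all false

open Polynomial IsDedekindDomain NumberField IntermediateField
open scoped Classical

namespace Pool.Agent.L0h50.UT

attribute [local instance 10] DivisionRing.toRatAlgebra

open Pool.Agent.Y800 (GQ ZBar InInertia IsGeomFrob)

theorem card_le_of_pow {k : Type} [Field k] [Finite k] {q : ℕ} (hq : 1 < q)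
    (h : ∀ x : k, x ^ q = x) : Nat.card k ≤ q := by
  haveI := Fintype.ofFinite k
  rw [Nat.card_eq_fintype_card]
  have h0 : (X ^ q - X : k[X]) ≠ 0 := FiniteField.X_pow_card_sub_X_ne_zero k hq
  have h1 : (Finset.univ : Finset k).card ≤ (X ^ q - X : k[X]).natDegree := by
    apply Polynomial.card_le_degree_of_subset_roots
    intro x _
    rw [Polynomial.mem_roots h0]
    simp [h x]
  rwa [FiniteField.X_pow_card_sub_X_natDegree_eq k hq] at h1

theorem spl_frob {E : IntermediateField ℚ Om} [NumberField E] {q : ℕ} (hq : q.Prime)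
    (hu : UnrQ E q) (hf : ∀ P : Ideal ZBar, P.IsMaximal → (q : ZBar) ∈ P → ∀ σ : GQ,
      IsGeomFrob q P σ → ∀ y ∈ E, σ y = y) : SplQ E q := by
  refine ⟨hu, fun P hP hqP => ?_⟩
  obtain ⟨hfin, hge⟩ := card_ge hq P hP hqP
  refine le_antisymm ?_ hge
  have hinj : Function.Injective (algebraMap (𝓞 E) ZBar) :=
    FaithfulSMul.algebraMap_injective _ _
  haveI hint : Algebra.IsIntegral (𝓞 E) ZBar := ⟨fun x => by
    have h1 : IsIntegral ℤ x := NumberField.RingOfIntegers.isIntegral x
    exact h1.tower_top⟩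
  obtain ⟨Q, -, hQp, hQ⟩ := Ideal.exists_ideal_over_prime_of_isIntegral (S := ZBar) P ⊥
    (by
      intro x hx
      have h1 : algebraMap (𝓞 E) ZBar x = 0 := by simpa using hx
      have h2 : x = 0 := hinj (by rw [h1, map_zero])
      rw [h2]
      exact zero_mem _)
  have hP0 : P ≠ ⊥ := by
    rintro rfl
    rw [Ideal.mem_bot] at hqP
    exact hq.ne_zero (by exact_mod_cast hqP)
  have hmaxP : P.IsMaximal := hP.isMaximal hP0
  have hQm : Q.IsMaximal := by
    haveI := hQp
    apply Ideal.isMaximal_of_isIntegral_of_isMaximal_comap (R := 𝓞 E)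
    rw [hQ]
    exact hmaxP
  have hqQ : (q : ZBar) ∈ Q := by
    have h1 : (q : 𝓞 E) ∈ Q.comap (algebraMap (𝓞 E) ZBar) := by rw [hQ]; exact hqP
    rw [Ideal.mem_comap, map_natCast] at h1
    exact h1
  obtain ⟨P0, σ0, hP0m, hqP0, hσ0⟩ := Pool.Agent.Y800.exists_geom hq
  obtain ⟨g, hg⟩ := Pool.Agent.Y802.TS.conj_primes hq hP0m hQm hqP0 hqQ
  have hfr := Pool.Agent.Y802.TS.frob_conj hg hσ0
  have hfix := hf Q hQm hqQ _ hfr
  letI : Field (𝓞 E ⧸ P) := Ideal.Quotient.field P
  apply card_le_of_pow hq.one_lt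
  intro t
  obtain ⟨x, rfl⟩ := Ideal.Quotient.mk_surjective t
  rw [← map_pow, Ideal.Quotient.eq, ← hQ, Ideal.mem_comap]
  have h1 := hfr (algebraMap (𝓞 E) ZBar x)
  have h2 : (g * σ0 * g⁻¹) • (algebraMap (𝓞 E) ZBar x) = algebraMap (𝓞 E) ZBar x := by
    apply NumberField.RingOfIntegers.ext
    exact hfix _ (x : E).2
  rw [h2] at h1
  rw [map_sub, map_pow]
  have h3 := Q.neg_mem h1
  rwa [neg_sub] at h3

end Pool.Agent.L0h50.UT
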