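import Pool.Agent.L0h50.UT.Tr4

/-!
# The tower over the rational numbers

Project UT (helper50).
-/

set_option autoImplicit false
set_option linter.all false

open Polynomial IsDedekindDomain NumberField IntermediateField
open scoped Classical

namespace Pool.Agent.L0h50.UT

attribute [local instance 10] DivisionRing.toRatAlgebra

open Pool.Agent.Y800 (GQ ZBar InInertia IsGeomFrob)

theorem not_sq (r : ℚ) :
    r ^ 2 ≠ ((17 * 41 * 73 * 89 * 97 * 113 * 137 * 193 * 233 * 241 : ℕ) : ℚ) := by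
  intro h
  have h1 : IsSquare ((17 * 41 * 73 * 89 * 97 * 113 * 137 * 193 * 233 * 241 : ℕ) : ℚ) :=
    ⟨r, by rw [← h, pow_two]⟩
  rw [Rat.isSquare_natCast_iff] at h1
  obtain ⟨t, ht⟩ := h1
  exact Nat.not_exists_sq (m := 8584664582)
    (n := 17 * 41 * 73 * 89 * 97 * 113 * 137 * 193 * 233 * 241) (by norm_num) (by norm_num)
    ⟨t, ht.symm⟩

theorem real_of {E : Type} [Field E] [NumberField E] (h : IsTotallyReal E) (φ : E →+* ℂ) (y : E) :
    (φ y).im = 0 := by
  have h1 : (InfinitePlace.mk φ).IsReal := h.isReal _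
  rw [InfinitePlace.isReal_mk_iff] at h1
  have h3 := RingHom.congr_fun h1 y
  rw [ComplexEmbedding.conjugate_coe_eq] at h3
  exact Complex.conj_eq_iff_im.1 h3

/-- The good subfields of `L`. -/
structure Gd (k L : IntermediateField ℚ Om) (E : IntermediateField ℚ Om) : Prop where
  hk : k ≤ E
  hL : E ≤ L
  fd : FiniteDimensional ℚ E
  real : ∀ (φ : E →+* ℂ) (y : E), (φ y).im = 0
  pow : ∃ m : ℕ, Module.finrank ℚ E = 2 ^ m
  st : ∀ σ : GQ, (∀ x ∈ k, σ x = x) → ∀ y ∈ E, σ y ∈ E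
  unr : ∀ [NumberField E], ∀ q : ℕ, q.Prime → q ∉ D10 → UnrQ E q
  spl : ∀ [NumberField E], SplQ E 2

theorem two_notin : (2 : ℕ) ∉ D10 := by
  unfold D10
  norm_num

theorem cover {k L : IntermediateField ℚ Om} {T : ℕ → ℕ} (H : IsTw0 k L T)
    (N : IntermediateField ℚ Om) (hN : N ≤ L) (hf : FiniteDimensional ℚ N) :
    ∃ E, Gd k L E ∧ N ≤ E := by
  obtain ⟨E, h1, h2, h3, i1, h4, h5, h6, h7, h8⟩ := H.cover N hN hf
  have hfd : FiniteDimensional ℚ E := by
    obtain ⟨m, hm⟩ := h6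
    exact FiniteDimensional.of_finrank_pos (by rw [hm]; positivity)
  refine ⟨E, ⟨h2, h3, hfd, real_of h4, h6, h7, fun q hq hq' => h8 q hq hq', ?_⟩, h1⟩
  intro i2
  refine ⟨h8 2 Nat.prime_two two_notin, fun P hP hqP => ?_⟩
  have hP0 : P ≠ ⊥ := by
    rintro rfl
    rw [Ideal.mem_bot] at hqP
    exact two_ne_zero (by exact_mod_cast hqP)
  exact (h5 ⟨P, hP, hP0⟩ (by exact_mod_cast hqP)).1

end Pool.Agent.L0h50.UT
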