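import Pool.Agent.L0h50.UT.Tr5

/-!
# The tower over the rational numbers: assembly

Project UT (helper50).
-/

set_option autoImplicit false
set_option linter.all false

open Polynomial IsDedekindDomain NumberField IntermediateField
open scoped Classical

namespace Pool.Agent.L0h50.UT

attribute [local instance 10] DivisionRing.toRatAlgebra

open Pool.Agent.Y800 (GQ ZBar InInertia IsGeomFrob)

section

variable {k L : IntermediateField ℚ Om} {s : Om} {d : ℕ} {a : GQ}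

/-- finite subextensions of the compositum of `L` and its conjugate -/
theorem cover2 (hcov : ∀ N : IntermediateField ℚ Om, N ≤ L → FiniteDimensional ℚ N →
    ∃ E, Gd k L E ∧ N ≤ E) (N : IntermediateField ℚ Om) (hN : N ≤ L ⊔ cj a L)
    (hf : FiniteDimensional ℚ N) : ∃ E, Gd k L E ∧ N ≤ E ⊔ cj a E := by
  let S : Set (IntermediateField ℚ Om) := {X | ∃ E, Gd k L E ∧ X = E ⊔ cj a E}
  have hne : S.Nonempty := by
    obtain ⟨E, hE, -⟩ := hcov ⊥ bot_le inferInstance
    exact ⟨_, E, hE, rfl⟩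
  have hdir : DirectedOn (· ≤ ·) S := by
    rintro _ ⟨E₁, h1, rfl⟩ _ ⟨E₂, h2, rfl⟩
    haveI := h1.fd
    haveI := h2.fd
    obtain ⟨E, hE, hle⟩ := hcov (E₁ ⊔ E₂) (sup_le h1.hL h2.hL) inferInstance
    refine ⟨_, ⟨E, hE, rfl⟩, ?_, ?_⟩
    · exact sup_le_sup (le_sup_left.trans hle) (cj_mono (le_sup_left.trans hle))
    · exact sup_le_sup (le_sup_right.trans hle) (cj_mono (le_sup_right.trans hle))
  have hpt : ∀ y ∈ L, ∃ E, Gd k L E ∧ y ∈ E := by
    intro y hy
    haveI : FiniteDimensional ℚ ℚ⟮y⟯ :=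
      adjoin.finiteDimensional (Algebra.IsIntegral.isIntegral (R := ℚ) y)
    obtain ⟨E, hE, hle⟩ := hcov ℚ⟮y⟯ (by rw [adjoin_simple_le_iff]; exact hy) inferInstance
    exact ⟨E, hE, hle (mem_adjoin_simple_self ℚ y)⟩
  have hle : L ⊔ cj a L ≤ sSup S := by
    refine sup_le ?_ ?_
    · intro y hy
      obtain ⟨E, hE, hyE⟩ := hpt y hy
      have h : E ⊔ cj a E ≤ sSup S := le_sSup ⟨E, hE, rfl⟩
      exact h ((le_sup_left : E ≤ E ⊔ cj a E) hyE)
    · intro y hy
      obtain ⟨z, hz, rfl⟩ := mem_cj.1 hy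
      obtain ⟨E, hE, hzE⟩ := hpt z hz
      have h : E ⊔ cj a E ≤ sSup S := le_sSup ⟨E, hE, rfl⟩
      exact h ((le_sup_right : cj a E ≤ E ⊔ cj a E) (mem_cj.2 ⟨z, hzE, rfl⟩))
  obtain ⟨_, ⟨E, hE, rfl⟩, h1⟩ :=
    Pool.Agent.H718R3.NT.le_of_directed N S hne hdir (hN.trans hle)
  exact ⟨E, hE, h1⟩

theorem stL (hcov : ∀ N : IntermediateField ℚ Om, N ≤ L → FiniteDimensional ℚ N →
    ∃ E, Gd k L E ∧ N ≤ E) (hfix : ∀ σ : GQ, (∀ x ∈ k, σ x = x) ↔ σ s = s) :
    ∀ σ : GQ, σ s = s → ∀ y ∈ L, σ y ∈ L := by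
  intro σ hσ y hy
  haveI : FiniteDimensional ℚ ℚ⟮y⟯ :=
    adjoin.finiteDimensional (Algebra.IsIntegral.isIntegral (R := ℚ) y)
  obtain ⟨E, hE, hle⟩ := hcov ℚ⟮y⟯ (by rw [adjoin_simple_le_iff]; exact hy) inferInstance
  exact hE.hL (hE.st σ ((hfix σ).2 hσ) y (hle (mem_adjoin_simple_self ℚ y)))

theorem finrank_cj (a : GQ) (E : IntermediateField ℚ Om) :
    Module.finrank ℚ (cj a E) = Module.finrank ℚ E :=
  (IntermediateField.equivMap E (a : Om →ₐ[ℚ] Om)).toLinearEquiv.finrank_eq.symm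

theorem pow_sup (hs : s ^ 2 = (d : Om)) (ha : a s = -s)
    (hfix : ∀ σ : GQ, (∀ x ∈ k, σ x = x) ↔ σ s = s) {E : IntermediateField ℚ Om}
    (hE : Gd k L E) (N : IntermediateField ℚ Om) (hN : N ≤ E ⊔ cj a E)
    (hf : FiniteDimensional ℚ N) (hg : IsGalois ℚ N) : ∃ m : ℕ, Module.finrank ℚ N = 2 ^ m := by
  obtain ⟨m, hm⟩ := hE.pow
  have hst : ∀ σ : GQ, σ s = s → ∀ y ∈ E, σ y ∈ E := fun σ h => hE.st σ ((hfix σ).2 h)
  have key : ∀ σ : GQ, ∀ y ∈ E ⊔ cj a E, ((σ ^ 2) ^ 2 ^ m) y = y := by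
    intro σ
    have h1 : (σ ^ 2) s = s := by
      rw [pow_two]
      change σ (σ s) = s
      rcases fix_or hs σ with h | h
      · rw [h, h]
      · rw [h, map_neg, h, neg_neg]
    have h2 := pow_aut hm (hst _ h1)
    have h3 := pow_aut (E := cj a E) (by rw [finrank_cj]; exact hm) (st1 hst ha h1)
    have h4 : E ⊔ cj a E ≤ IntermediateField.fixedField (Subgroup.zpowers ((σ ^ 2) ^ 2 ^ m)) := by
      have h5 : ∀ X : IntermediateField ℚ Om, (∀ y ∈ X, ((σ ^ 2) ^ 2 ^ m) y = y) →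
          X ≤ IntermediateField.fixedField (Subgroup.zpowers ((σ ^ 2) ^ 2 ^ m)) := by
        intro X hX y hy
        rw [IntermediateField.mem_fixedField_iff]
        rintro _ ⟨n, rfl⟩
        exact (MulAction.stabilizer GQ y).zpow_mem
          (show ((σ ^ 2) ^ 2 ^ m) ∈ MulAction.stabilizer GQ y from hX y hy) n
      exact sup_le (h5 E h2) (h5 _ h3)
    intro y hy
    have h5 := h4 hy
    rw [IntermediateField.mem_fixedField_iff] at h5
    exact h5 _ (Subgroup.mem_zpowers _)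
  have hp : IsPGroup 2 (N ≃ₐ[ℚ] N) := by
    intro τ
    obtain ⟨σ, rfl⟩ := AlgEquiv.restrictNormalHom_surjective (F := ℚ) (K₁ := N) (E := Om) τ
    refine ⟨m + 1, ?_⟩
    rw [pow_succ', pow_mul, ← map_pow, ← map_pow]
    ext y
    rw [AlgEquiv.restrictNormalHom_apply]
    exact key σ y (hN y.2)
  haveI : Finite (N ≃ₐ[ℚ] N) := inferInstance
  haveI : Fact (Nat.Prime 2) := ⟨Nat.prime_two⟩
  obtain ⟨n, hn⟩ := (IsPGroup.iff_card).1 hp
  exact ⟨n, by rw [← IsGalois.card_aut_eq_finrank, hn]⟩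

end

theorem twr (h0 : S_TW0) (hC : S_CMP) : S_TWR := by
  obtain ⟨k, L, T, H⟩ := h0
  obtain ⟨s, hsk, hs⟩ := H.sqrt
  have hfix := fun σ => fix_iff hs not_sq H.rank hsk σ
  obtain ⟨a, ha⟩ := exists_neg hs not_sq
  have hcov := cover H
  have hstL := stL hcov hfix
  have hTmono : StrictMono T := strictMono_nat_of_lt_succ H.mono
  -- the fields `E` and their conjugates
  have hnum : ∀ E, Gd k L E → ∀ N : IntermediateField ℚ Om, N ≤ E ⊔ cj a E → ∀ [NumberField N],
      ∀ q : ℕ, q.Prime → ((q ∉ D10 → UnrQ N q) ∧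
        ((∀ [NumberField E], SplQ E q) → SplQ N q)) := by
    intro E hE N hN _ q hq
    haveI f1 := hE.fd
    haveI f2 : FiniteDimensional ℚ (cj a E) :=
      Module.Finite.equiv (IntermediateField.equivMap E (a : Om →ₐ[ℚ] Om)).toLinearEquiv
    haveI i1 : NumberField E := nf_of f1
    haveI i2 : NumberField (cj a E) := nf_of f2
    haveI f3 : FiniteDimensional ℚ (E ⊔ cj a E : IntermediateField ℚ Om) := inferInstance
    haveI i3 : NumberField (E ⊔ cj a E : IntermediateField ℚ Om) := nf_of f3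
    have hk' : k ≤ cj a E := by
      intro x hx
      -- `k` is stable
      have hst : ∀ σ : GQ, ∀ x ∈ k, σ x ∈ k := by
        intro σ x hx
        have h1 := adj_eq hs not_sq H.rank hsk
        have h2 : cj σ ℚ⟮s⟯ ≤ k := by
          unfold cj
          rw [adjoin_map, Set.image_singleton, adjoin_simple_le_iff]
          rcases fix_or hs σ with h | h
          · exact h.symm ▸ hsk
          · exact h.symm ▸ neg_mem hsk
        rw [h1] at h2
        exact h2 (mem_cj.2 ⟨x, hx, rfl⟩)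
      refine mem_cj.2 ⟨a⁻¹ x, hE.hk (hst _ x hx), ?_⟩
      exact a.apply_symm_apply x
    have hst : ∀ σ : GQ, σ s = s → ∀ y ∈ E, σ y ∈ E := fun σ h => hE.st σ ((hfix σ).2 h)
    have hst' : ∀ σ : GQ, (∀ x ∈ k, σ x = x) → ∀ y ∈ cj a E, σ y ∈ cj a E := fun σ h =>
      st1 hst ha ((hfix σ).1 h)
    have key := cmp_sup hC hE.hk hk' hE.st hst' i1 i2 i3 hq
    let e : cj a E →+* E :=
      ((IntermediateField.equivMap E (a : Om →ₐ[ℚ] Om)).symm : cj a E ≃ₐ[ℚ] E).toRingEquiv.toRingHom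
    let e' : N →+* (E ⊔ cj a E : IntermediateField ℚ Om) :=
      (IntermediateField.inclusion hN).toRingHom
    refine ⟨fun h => ?_, fun h => ?_⟩
    · have h1 : UnrQ E q := hE.unr q hq h
      exact (key.1 h1 (h1.equiv e)).equiv e'
    · have h1 : SplQ E q := h
      exact (key.2 h1 (h1.equiv hq e)).equiv hq e'
  refine ⟨L ⊔ cj a L, {q | (∃ i, T i = q) ∧ q ∉ D10}, ?_, ?_, ?_, ?_, ?_, ?_, ?_, ?_⟩
  · intro hf
    apply H.inf
    exact FiniteDimensional.of_injective (IntermediateField.inclusion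
      (le_sup_left : L ≤ L ⊔ cj a L)).toLinearMap
      (IntermediateField.inclusion (le_sup_left : L ≤ L ⊔ cj a L)).injective
  · intro σ y hy
    exact st_sup hs hstL ha σ y hy
  · intro N hN hf hg
    obtain ⟨E, hE, hle⟩ := cover2 hcov N hN hf
    exact pow_sup hs ha hfix hE N hle hf hg
  · intro N hN φ y
    haveI : FiniteDimensional ℚ ℚ⟮(y : Om)⟯ :=
      adjoin.finiteDimensional (Algebra.IsIntegral.isIntegral (R := ℚ) (y : Om))
    obtain ⟨E, hE, hle⟩ := cover2 (a := a) hcov ℚ⟮(y : Om)⟯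
      (by rw [adjoin_simple_le_iff]; exact hN y.2) inferInstance
    letI : Algebra N ℂ := φ.toAlgebra
    haveI : Algebra.IsAlgebraic N Om := Algebra.IsAlgebraic.tower_top (K := ℚ) N
    let Φ : Om →ₐ[N] ℂ := IsAlgClosed.lift
    have h1 := real_sup (a := a) hE.real (Φ : Om →+* ℂ) y (hle (mem_adjoin_simple_self ℚ (y : Om)))
    have h2 : (Φ : Om →+* ℂ) (y : Om) = φ y := Φ.commutes y
    rw [h2] at h1
    exact h1
  · intro N hN _ hg q hq hqD
    have hf : FiniteDimensional ℚ N := by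
      have := (inferInstance : NumberField N).to_finiteDimensional
      convert this
    obtain ⟨E, hE, hle⟩ := cover2 hcov N hN hf
    exact (hnum E hE N hle q hq).1 hqD
  · intro N hN _ hg q hq
    have hf : FiniteDimensional ℚ N := by
      have := (inferInstance : NumberField N).to_finiteDimensional
      convert this
    obtain ⟨E, hE, hle⟩ := cover2 hcov N hN hf
    rcases hq with rfl | ⟨⟨i, rfl⟩, hqD⟩
    · exact (hnum E hE N hle 2 Nat.prime_two).2 hE.spl
    · refine (hnum E hE N hle (T i) (H.prime i)).2 ?_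
      intro _
      refine spl_frob (H.prime i) (hE.unr _ (H.prime i) hqD) fun P hP hqP σ hσ y hy => ?_
      exact H.split i P hP hqP σ hσ y (hE.hL hy)
  · have h1 : (Set.range T).Infinite := Set.infinite_range_of_injective hTmono.injective
    have h2 : D10.Finite := by
      unfold D10
      exact Set.toFinite _
    refine (h1.diff h2).mono ?_
    rintro q ⟨⟨i, rfl⟩, hq⟩
    exact ⟨⟨i, rfl⟩, hq⟩
  · rintro q ⟨⟨i, rfl⟩, -⟩
    exact ⟨H.prime i, H.mod8 i⟩

end Pool.Agent.L0h50.UT
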