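import Pool.Agent.L0h50.UT.TwA

/-!
# The tower over the real quadratic field

Project UT (helper50). The proof is the proof of `Y802.TS.exists_tower` with other open subgroups and
more properties.
-/

set_option autoImplicit false
set_option linter.all false

open Module NumberField IsDedekindDomain IntermediateField Topology
open Pool.Agent.TeamU Pool.Agent.H718R3 Pool.Agent.Y800 Pool.Agent.Y802.TS

namespace Pool.Agent.L0h50.UT

attribute [local instance 10] DivisionRing.toRatAlgebra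

theorem tw0 : S_TW0 := by
  obtain ⟨k, i1, i2, hk, hreal, h2, s, hs⟩ := NT.exists_base
  obtain ⟨M, hM, hq⟩ := NT.exists_tow k hreal h2 s hs
  obtain ⟨e⟩ := exists_equiv k
  have hgal : IsGalois k M := hM.normal
  have hB : Basis1 (Gal(M/k)) := NT.basis1
  have hG : Pro2 (Gal(M/k)) := hM.pro2
  have hfin := hM.finite_Hm
  have hd := hM.nine_le hk s hs hq
  obtain ⟨hH, hr⟩ := hM.H2_le hk 17 (NT.index_le hk s hs)
  obtain ⟨g0, χ0, hg0, -, -⟩ := exists_sep hfin
  choose D hD hD' using fun n => exists_deep hG hg0 n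
  choose U0 hU0 hU0' using fun n => th_open e M (D n) (hD n).2
  -- the nontrivial coset
  let K0 : IntermediateField ℚ (AlgebraicClosure ℚ) := img e ⊥
  have hK0 : Gk e = K0.fixingSubgroup := by
    ext σ
    rw [mem_Gk_iff, IntermediateField.mem_fixingSubgroup_iff]
  have hr0 : finrank ℚ K0 = 2 := (finrank_img_bot e).trans hk
  have hfd0 : FiniteDimensional ℚ K0 := FiniteDimensional.of_finrank_pos (by rw [hr0]; norm_num)
  have hGkopen : IsOpen (Gk e : Set GQ) := by
    rw [hK0]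
    exact K0.fixingSubgroup_isOpen
  have hidx : (Gk e).index = 2 := by
    rw [hK0, ← IntermediateField.finrank_eq_fixingSubgroup_index, hr0]
  obtain ⟨a, ha⟩ := Subgroup.index_eq_two_iff.1 hidx
  obtain ⟨S0, hS0⟩ := almost_unr (Gk e) hGkopen
  -- the eighth root of unity
  obtain ⟨ζ, hζ⟩ := exists_zeta
  let Z8 : Subgroup GQ := (ℚ⟮(ζ : AlgebraicClosure ℚ)⟯).fixingSubgroup.normalCore
  have hfz : FiniteDimensional ℚ ℚ⟮(ζ : AlgebraicClosure ℚ)⟯ :=
    adjoin.finiteDimensional (Algebra.IsIntegral.isIntegral (R := ℚ) (ζ : AlgebraicClosure ℚ))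
  have hZo : IsOpen (Z8 : Set GQ) := core_open (IntermediateField.fixingSubgroup_isOpen _)
  have hZn : Z8.Normal := Subgroup.normalCore_normal _
  have hZ : ∀ σ ∈ Z8, σ • ζ = ζ := by
    intro σ hσ
    have h3 := Subgroup.normalCore_le _ hσ
    rw [IntermediateField.mem_fixingSubgroup_iff] at h3
    apply RingOfIntegers.ext
    exact h3 _ (mem_adjoin_simple_self ℚ _)
  -- the open normal subgroups
  let V : ℕ → Subgroup GQ := fun j => (U0 (2 * j + 4)).normalCore
  have hVo : ∀ j, IsOpen (V j : Set GQ) := fun j => core_open (hU0 _)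
  have hVn : ∀ j, (V j).Normal := fun j => Subgroup.normalCore_normal _
  let U : ℕ → Subgroup GQ := fun j => V j ⊓ Z8
  have hUo : ∀ j, IsOpen (U j : Set GQ) := fun j => (hVo j).inter hZo
  have hUn : ∀ j, (U j).Normal := by
    intro j
    have := hVn j
    exact Subgroup.normal_inf_normal _ _
  obtain ⟨T, x, hT1, hT2, hT3, hT4, hT5⟩ :=
    choose_primes (fun _ => 0) (S0 ∪ {2}) (fun _ => 1) (fun _ => 1) U hUo hUn
  have hxU : ∀ j, x j ∈ U j := by
    intro j
    have h3 := hT5 j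
    rwa [one_pow, inv_one, mul_one] at h3
  have hxV : ∀ j, x j ∈ V j := fun j => (hxU j).1
  have hTS : ∀ i, T i ∉ S0 := fun i h => hT2 i (Finset.mem_union_left _ h)
  have hT8 : ∀ i, T i % 8 = 1 := by
    intro i
    obtain ⟨P, hP, hTP, hx⟩ := hT4 i
    refine mod8 (hT1 i) ?_ P hP hTP ζ hζ ?_
    · intro h
      exact hT2 i (Finset.mem_union_right _ (by rw [h]; exact Finset.mem_singleton_self 2))
    · have h3 := hx ζ
      rwa [hZ _ (hxU i).2] at h3
  have hxV' : ∀ (b : GQ) j, ∃ h : b * x j * b⁻¹ ∈ Gk e, th e M ⟨_, h⟩ ∈ D (2 * j + 4) := by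
    intro b j
    exact hU0' _ _ (Subgroup.normalCore_le _ ((hVn j).conj_mem _ (hxV j) b))
  choose hc hcD using hxV'
  let z : ℕ → Gal(M/k) := fun i =>
    if i % 2 = 0 then th e M ⟨_, hc 1 (i / 2)⟩ else th e M ⟨_, hc a⁻¹ (i / 2)⟩
  have hz : ∀ i, ∀ φ ∈ W (Gal(M/k)) (i + 3), R (z i) φ = φ := by
    intro i φ hφ
    have h3 : φ ∈ W (Gal(M/k)) (2 * (i / 2) + 4) := W_mono (by omega) hφ
    apply hD' (2 * (i / 2) + 4) _ _ φ h3
    simp only [z]
    split_ifs
    · exact hcD _ _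
    · exact hcD _ _
  have hinf := infinite_quotient hG hfin hH hd hr z hz
  have hNn : (NC z).Normal := NC_normal z
  have hNc : IsClosed (NC z : Set (Gal(M/k))) := Subgroup.isClosed_topologicalClosure _
  let Lf : IntermediateField k M := fixedField (NC z)
  have hfix : Lf.fixingSubgroup = NC z := NT.fix_fixed (NC z) hNc
  have hLf : IsGalois k Lf := inferInstance
  have hLfn : Normal k Lf := hLf.to_normal
  let L : IntermediateField ℚ (AlgebraicClosure ℚ) := img e (lift Lf)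
  -- the group fixing `L`
  let F : Subgroup GQ := L.fixingSubgroup
  have hFmem : ∀ σ : Gk e, th e M σ ∈ NC z → σ.1 ∈ F := by
    intro σ hσ
    rw [IntermediateField.mem_fixingSubgroup_iff]
    intro y hy
    exact fix_img e M Lf σ (by rw [hfix]; exact hσ) hy
  have hz0 : ∀ j, th e M ⟨_, hc 1 j⟩ ∈ NC z := by
    intro j
    have h3 := mem_NC z (2 * j)
    simp only [z] at h3
    rw [if_pos (by omega)] at h3
    have h4 : 2 * j / 2 = j := by omega
    rwa [h4] at h3
  have hz1 : ∀ j, th e M ⟨_, hc a⁻¹ j⟩ ∈ NC z := by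
    intro j
    have h3 := mem_NC z (2 * j + 1)
    simp only [z] at h3
    rw [if_neg (by omega)] at h3
    have h4 : (2 * j + 1) / 2 = j := by omega
    rwa [h4] at h3
  have hconjF : ∀ (b : GQ) (j : ℕ), b * x j * b⁻¹ ∈ F := by
    intro b j
    have hgen : ∀ (b' c : GQ) (h : b' ∈ Gk e) (hcc : c * x j * c⁻¹ ∈ Gk e),
        th e M ⟨_, hcc⟩ ∈ NC z → b' * (c * x j * c⁻¹) * b'⁻¹ ∈ F := by
      intro b' c h hcc h3
      apply hFmem ⟨b' * (c * x j * c⁻¹) * b'⁻¹, (Gk e).mul_mem ((Gk e).mul_mem h hcc)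
        ((Gk e).inv_mem h)⟩
      have h4 : (⟨b' * (c * x j * c⁻¹) * b'⁻¹, (Gk e).mul_mem ((Gk e).mul_mem h hcc)
        ((Gk e).inv_mem h)⟩ : Gk e) = ⟨b', h⟩ * ⟨_, hcc⟩ * (⟨b', h⟩ : Gk e)⁻¹ := rfl
      rw [h4, map_mul, map_mul, map_inv]
      exact hNn.conj_mem _ h3 _
    by_cases hb : b ∈ Gk e
    · have h3 := hgen b 1 hb (hc 1 j) (hz0 j)
      have h4 : b * (1 * x j * 1⁻¹) * b⁻¹ = b * x j * b⁻¹ := by group
      rwa [h4] at h3
    · have h5 : b * a ∈ Gk e := by
        rcases ha b with h | h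
        · exact h.1
        · exact absurd h.1 hb
      have h3 := hgen (b * a) a⁻¹ h5 (hc a⁻¹ j) (hz1 j)
      have h4 : b * a * (a⁻¹ * x j * (a⁻¹)⁻¹) * (b * a)⁻¹ = b * x j * b⁻¹ := by group
      rwa [h4] at h3
  have hin : ∀ q : ℕ, q.Prime → ∀ P : Ideal ZBar, P.IsMaximal → (q : ZBar) ∈ P → ∀ τ : GQ,
      τ ∈ Gk e → InInertia P τ → τ ∈ F := by
    intro q hq P hP hqP τ hτ hτP
    rw [IntermediateField.mem_fixingSubgroup_iff]
    intro y hy
    exact inertia_img e M hM ⟨τ, hτ⟩ q hq P hP hqP hτP Lf hy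
  have hGkK : ∀ σ : GQ, (∀ x ∈ K0, σ x = x) → σ ∈ Gk e := by
    intro σ hσ
    rw [mem_Gk_iff]
    exact hσ
  have hinT : ∀ i, ∀ P : Ideal ZBar, P.IsMaximal → (T i : ZBar) ∈ P → ∀ τ : GQ,
      InInertia P τ → τ ∈ F := by
    intro i P hP hTP τ hτ
    exact hin (T i) (hT1 i) P hP hTP τ (hS0 (T i) (hT1 i) (hTS i) P hP hTP τ hτ) hτ
  have hunr : ∀ q : ℕ, q.Prime → q ∉ D10 → UnrQ k q := fun q hq hqD =>
    unrQ_base hk h2 s hs hq hqD
  refine ⟨K0, L, T, hr0, ?_, ?_, ?_, ?_, hT1, ?_, hT8, ?_⟩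
  · refine ⟨e (algebraMap k _ s), (mem_img_bot e).2 ⟨s, rfl⟩, ?_⟩
    rw [← map_pow, ← map_pow, hs, map_natCast, map_natCast]
    congr 1
  · exact img_mono e bot_le
  · apply not_finite_img e (lift Lf)
    intro hfd
    have hfd2 : FiniteDimensional k Lf := Module.Finite.equiv (liftAlgEquiv Lf).symm.toLinearEquiv
    have ho : IsOpen (NC z : Set (Gal(M/k))) := by
      rw [← hfix]
      exact Lf.fixingSubgroup_isOpen
    have : Finite (Gal(M/k) ⧸ NC z) := Subgroup.quotient_finite_of_isOpen _ ho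
    exact not_finite (Gal(M/k) ⧸ NC z)
  · intro N hN hNf
    exact cover_aux e M hM hk hunr Lf N hN hNf
  · intro i
    have h3 := hT3 i
    omega
  · intro i P hP hTP σ hσ y hy
    have h3 := split_of (hT1 i) (hT4 i) F (fun b => hconjF b i) (hinT i) P hP hTP σ hσ
    exact (IntermediateField.mem_fixingSubgroup_iff L σ).1 h3 y hy

end Pool.Agent.L0h50.UT
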