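import Pool.Agent.L0h50.UT.TorC

/-!
# Points over a union of extensions which embed in the completion at a prime over 2

Project UT (helper50).
-/

set_option autoImplicit false
set_option linter.all false

open IsDedekindDomain NumberField
open scoped Classical

namespace Pool.Agent.L0h50.UT.Tor

variable {F : Type} [Field F] [NumberField F]

/-- the curve over `F` -/
abbrev cv (A B : 𝓞 F) : WeierstrassCurve F := ⟨0, 0, 0, (A : F), (B : F)⟩

/-- the points over `K` -/
abbrev Ps (A B : 𝓞 F) (K : Type) [Field K] [Algebra F K] : Type :=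
  ((cv A B).baseChange K).toAffine.Point

theorem exists_two : ∃ v : HeightOneSpectrum (𝓞 F), (2 : 𝓞 F) ∈ v.asIdeal := by
  have h : Ideal.span {(2 : 𝓞 F)} ≠ ⊤ := by
    intro h
    rw [Ideal.span_singleton_eq_top] at h
    obtain ⟨u, hu⟩ := h.exists_right_inv
    have h1 : IsIntegral ℤ ((1 / 2 : ℚ)) := by
      rw [← isIntegral_algebraMap_iff (algebraMap ℚ F).injective]
      have h2 : (algebraMap ℚ F) (1 / 2) = (u : F) := by
        have h3 : (2 : F) * (u : F) = 1 := by
          have := congrArg (algebraMap (𝓞 F) F) hu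
          rw [map_mul, map_one, map_ofNat] at this
          exact this
        rw [map_div₀, map_one, map_ofNat]
        field_simp
        exact h3.symm
      rw [h2]
      exact RingOfIntegers.isIntegral_coe u
    obtain ⟨z, hz⟩ := (IsIntegrallyClosed.isIntegral_iff (R := ℤ)).1 h1
    have h4 : (2 * z : ℤ) = 1 := by
      have h5 : ((2 * z : ℤ) : ℚ) = 1 := by
        push_cast
        have : ((z : ℤ) : ℚ) = 1 / 2 := by simpa using hz
        rw [this]
        norm_num
      exact_mod_cast h5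
    omega
  obtain ⟨P, hP, hle⟩ := Ideal.exists_le_maximal _ h
  have h2 : (2 : 𝓞 F) ∈ P := hle (Ideal.mem_span_singleton_self 2)
  refine ⟨⟨P, hP.isPrime, ?_⟩, h2⟩
  rintro rfl
  rw [Ideal.mem_bot] at h2
  exact two_ne_zero h2

theorem odd_finite' (v : HeightOneSpectrum (𝓞 F)) (hv : (2 : 𝓞 F) ∈ v.asIdeal) (A B : 𝓞 F)
    (hδ : 4 * (A : F) ^ 3 + 27 * (B : F) ^ 2 ≠ 0) :
    {P : Ps A B (v.adicCompletion F) | ∃ n : ℕ, Odd n ∧ n • P = 0}.Finite := by
  have e : EW (algebraMap F (v.adicCompletion F) (A : F))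
      (algebraMap F (v.adicCompletion F) (B : F)) = (cv A B).baseChange (v.adicCompletion F) := by
    apply WeierstrassCurve.ext <;> simp [EW, cv, WeierstrassCurve.baseChange]
  have key : ∀ W : WeierstrassCurve (v.adicCompletion F),
      EW (algebraMap F (v.adicCompletion F) (A : F))
      (algebraMap F (v.adicCompletion F) (B : F)) = W →
      {P : W.toAffine.Point | ∃ n : ℕ, Odd n ∧ n • P = 0}.Finite := by
    rintro W rfl
    exact odd_finite v hv A B hδ
  exact key _ e

theorem odd_nsmul {G : Type} [AddGroup G] (hf : Finite G) (ho : Odd (Nat.card G)) (P : G) :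
    ∃ n : ℕ, Odd n ∧ n • P = 0 :=
  ⟨Nat.card G, ho, card_nsmul_eq_zero'⟩

theorem bound (A B : 𝓞 F) (hδ : 4 * (A : F) ^ 3 + 27 * (B : F) ^ 2 ≠ 0) :
    ∃ b : ℕ, ∀ (M : Type) [Field M] [Algebra F M],
      (∀ v : HeightOneSpectrum (𝓞 F), (2 : 𝓞 F) ∈ v.asIdeal →
        Nonempty (M →ₐ[F] v.adicCompletion F)) →
      Finite (Ps A B M) → Odd (Nat.card (Ps A B M)) → Nat.card (Ps A B M) ≤ b := by
  obtain ⟨v, hv⟩ := exists_two (F := F)
  have hfin := odd_finite' v hv A B hδ
  refine ⟨{P : Ps A B (v.adicCompletion F) | ∃ n : ℕ, Odd n ∧ n • P = 0}.ncard, ?_⟩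
  intro M _ _ hM hf ho
  obtain ⟨ρ⟩ := hM v hv
  haveI := hfin.to_subtype
  let g : Ps A B M → {P : Ps A B (v.adicCompletion F) | ∃ n : ℕ, Odd n ∧ n • P = 0} := fun P =>
    ⟨WeierstrassCurve.Affine.Point.map (W' := (cv A B).toAffine) ρ P, by
      obtain ⟨n, hn, h0⟩ := odd_nsmul hf ho P
      refine ⟨n, hn, ?_⟩
      rw [← map_nsmul, h0, _root_.map_zero]⟩
  have hg : Function.Injective g := by
    intro P Q h
    exact WeierstrassCurve.Affine.Point.map_injective (W' := (cv A B).toAffine) (f := ρ)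
      (congrArg Subtype.val h)
  exact Nat.card_le_card_of_injective g hg

/-- points with coordinates in a subfield -/
theorem surj (A B : 𝓞 F) {K : Type} [Field K] [Algebra F K] (M : IntermediateField F K) (x y : K)
    (h : ((cv A B).baseChange K).toAffine.Nonsingular x y) (hx : x ∈ M) (hy : y ∈ M) :
    ∃ Q : Ps A B M, WeierstrassCurve.Affine.Point.map (W' := (cv A B).toAffine)
      (M.val : M →ₐ[F] K) Q = WeierstrassCurve.Affine.Point.some x y h := by
  have h1 : ((cv A B).baseChange M).toAffine.Nonsingular (⟨x, hx⟩ : M) ⟨y, hy⟩ :=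
    (WeierstrassCurve.Affine.baseChange_nonsingular (W := (cv A B).toAffine) (f := M.val)
      M.val.injective ⟨x, hx⟩ ⟨y, hy⟩).1 h
  exact ⟨.some _ _ h1, rfl⟩

/-- the coordinates of a point -/
noncomputable def co {A B : 𝓞 F} {K : Type} [Field K] [Algebra F K] (P : Ps A B K) : Finset K :=
  match P with
  | .zero => ∅
  | .some x y _ => {x, y}

theorem surj' (A B : 𝓞 F) {K : Type} [Field K] [Algebra F K] (M : IntermediateField F K)
    (P : Ps A B K) (h : ∀ x ∈ co P, x ∈ M) :
    ∃ Q : Ps A B M, WeierstrassCurve.Affine.Point.map (W' := (cv A B).toAffine)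
      (M.val : M →ₐ[F] K) Q = P := by
  rcases P with _ | ⟨x, y, hP⟩
  · exact ⟨0, rfl⟩
  · exact surj A B M x y hP (h x (by simp [co])) (h y (by simp [co]))

/-- `K` is a union of finite extensions with at most `b` points, of odd number. -/
theorem union (A B : 𝓞 F) {K : Type} [Field K] [Algebra F K] (b : ℕ)
    (h : ∀ t : Finset K, ∃ M : IntermediateField F K, (∀ x ∈ t, x ∈ M) ∧
      Finite (Ps A B M) ∧ Odd (Nat.card (Ps A B M)) ∧ Nat.card (Ps A B M) ≤ b) :
    Finite (Ps A B K) ∧ Odd (Nat.card (Ps A B K)) := by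
  have hsurj : ∀ s : Finset (Ps A B K), ∃ M : IntermediateField F K,
      Finite (Ps A B M) ∧ Odd (Nat.card (Ps A B M)) ∧ Nat.card (Ps A B M) ≤ b ∧
      ∀ P ∈ s, ∃ Q : Ps A B M, WeierstrassCurve.Affine.Point.map (W' := (cv A B).toAffine)
        (M.val : M →ₐ[F] K) Q = P := by
    intro s
    obtain ⟨M, h1, h2, h3, h4⟩ := h (s.biUnion co)
    exact ⟨M, h2, h3, h4, fun P hP => surj' A B M P fun x hx =>
      h1 x (Finset.mem_biUnion.2 ⟨P, hP, hx⟩)⟩
  have hfin : Finite (Ps A B K) := by
    by_contra hinf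
    rw [not_finite_iff_infinite] at hinf
    obtain ⟨s, hs⟩ := Infinite.exists_subset_card_eq (Ps A B K) (b + 1)
    obtain ⟨M, h2, h3, h4, h5⟩ := hsurj s
    choose g hg using h5
    let g' : s → Ps A B M := fun P => g P.1 P.2
    have hinj : Function.Injective g' := by
      intro P Q hPQ
      apply Subtype.ext
      have i1 := hg P.1 P.2
      have i2 := hg Q.1 Q.2
      rw [← i1, ← i2]
      exact congrArg _ hPQ
    have h6 := Nat.card_le_card_of_injective g' hinj
    rw [Nat.card_eq_fintype_card, Fintype.card_coe, hs] at h6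
    omega
  refine ⟨hfin, ?_⟩
  haveI : Fintype (Ps A B K) := Fintype.ofFinite _
  obtain ⟨M, h2, h3, h4, h5⟩ := hsurj Finset.univ
  have hbij : Function.Bijective (WeierstrassCurve.Affine.Point.map (W' := (cv A B).toAffine)
      (M.val : M →ₐ[F] K)) :=
    ⟨WeierstrassCurve.Affine.Point.map_injective (W' := (cv A B).toAffine) (f := M.val),
      fun P => h5 P (Finset.mem_univ P)⟩
  rw [← Nat.card_congr (Equiv.ofBijective _ hbij)]
  exact h3

/-- subfields -/
theorem sub_odd (A B : 𝓞 F) {K : Type} [Field K] [Algebra F K] (hf : Finite (Ps A B K))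
    (ho : Odd (Nat.card (Ps A B K))) (M : IntermediateField F K) :
    Finite (Ps A B M) ∧ Odd (Nat.card (Ps A B M)) := by
  have hinj := WeierstrassCurve.Affine.Point.map_injective (W' := (cv A B).toAffine) (f := M.val)
  refine ⟨Finite.of_injective _ hinj, ?_⟩
  exact ho.of_dvd_nat (AddSubgroup.card_dvd_of_injective
    (WeierstrassCurve.Affine.Point.map (W' := (cv A B).toAffine) (M.val : M →ₐ[F] K)) hinj)

end Pool.Agent.L0h50.UT.Tor
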